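import Pool.Agent.U253.SPL.Tor

/-!
# Small combinations of the characters of a torus
-/

set_option autoImplicit false

namespace Pool.Agent.U253.SPL

open Filter Topology Complex Pool.Agent.N210.FV Pool.Agent.N210.FW Pool.Agent.N845.SP
open Pool.Agent.U253.GAP
open Pool.Agent.U253.EEA (Half FEq mo_app)

/-- lists and ranges -/
theorem sum_getD {α M : Type*} [AddCommMonoid M] (l : List α) (d : α) (f : α → M) :
    ∑ i ∈ Finset.range l.length, f (l.getD i d) = (l.map f).sum := by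
  induction l with
  | nil => simp
  | cons a l ih =>
    rw [List.length_cons, Finset.sum_range_succ', List.map_cons, List.sum_cons, ← ih, add_comm]
    simp

/-- lists and ranges -/
theorem prod_getD {α M : Type*} [CommMonoid M] (l : List α) (d : α) (f : α → M) :
    ∏ i ∈ Finset.range l.length, f (l.getD i d) = (l.map f).prod := by
  induction l with
  | nil => simp
  | cons a l ih =>
    rw [List.length_cons, Finset.prod_range_succ', List.map_cons, List.prod_cons, ← ih, mul_comm]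
    simp

section

variable {J : Type*} [Fintype J] {r : ℕ} {W : J → List (Fin r → ℤ)} {c : J → ℝ}

theorem par_step (a z : ℂ) (δ : ℤ) :
    (open Classical in
      ((if z = 1 + (a + ((δ % 2 : ℤ) : ℂ)) then (1 : ℝ) else 0) +
        if z = 2 - (a + ((δ % 2 : ℤ) : ℂ)) then 1 else 0) +
      ((if z = 1 + (-a + ((δ % 2 : ℤ) : ℂ)) then (1 : ℝ) else 0) +
        if z = 2 - (-a + ((δ % 2 : ℤ) : ℂ)) then 1 else 0)) =
    (open Classical in
      ((if a = z - 1 then (1 : ℝ) else 0) + if -a = z - 1 then 1 else 0) +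
      ((if a = z - 2 then (1 : ℝ) else 0) + if -a = z - 2 then 1 else 0)) := by
  classical
  have e1 : (z = 1 + a) = (a = z - 1) := by
    rw [eq_iff_iff]
    constructor
    · intro h; rw [h]; ring
    · intro h; rw [h]; ring
  have e2 : (z = 2 - a) = (-a = z - 2) := by
    rw [eq_iff_iff]
    constructor
    · intro h; rw [h]; ring
    · intro h; linear_combination -h
  have e3 : (z = 1 + -a) = (-a = z - 1) := by
    rw [eq_iff_iff]
    constructor
    · intro h; rw [h]; ring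
    · intro h; linear_combination -h
  have e4 : (z = 2 - -a) = (a = z - 2) := by
    rw [eq_iff_iff]
    constructor
    · intro h; rw [h]; ring
    · intro h; linear_combination -h
  have e5 : (z = 1 + (a + 1)) = (a = z - 2) := by
    rw [eq_iff_iff]
    constructor
    · intro h; rw [h]; ring
    · intro h; linear_combination -h
  have e6 : (z = 2 - (a + 1)) = (-a = z - 1) := by
    rw [eq_iff_iff]
    constructor
    · intro h; rw [h]; ring
    · intro h; linear_combination -h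
  have e7 : (z = 1 + (-a + 1)) = (-a = z - 2) := by
    rw [eq_iff_iff]
    constructor
    · intro h; rw [h]; ring
    · intro h; linear_combination -h
  have e8 : (z = 2 - (-a + 1)) = (a = z - 1) := by
    rw [eq_iff_iff]
    constructor
    · intro h; rw [h]; ring
    · intro h; linear_combination -h
  rcases Int.emod_two_eq_zero_or_one δ with h | h
  · rw [h]
    simp only [Int.cast_zero, add_zero, e1, e2, e3, e4]
    ring
  · rw [h]
    simp only [Int.cast_one, e5, e6, e7, e8]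
    ring

theorem list_step (ν : Fin r → ℂ) (ε : Fin r → ℤ) (l : List (Fin r → ℤ)) (z : ℂ) :
    (open Classical in (((l.map fun μ => dc ν μ + ((dt ε μ % 2 : ℤ) : ℂ)).map fun m =>
      (if z = 1 + m then (1 : ℝ) else 0) + if z = 2 - m then 1 else 0).sum +
      ((l.map fun μ => -dc ν μ + ((dt ε μ % 2 : ℤ) : ℂ)).map fun m =>
      (if z = 1 + m then (1 : ℝ) else 0) + if z = 2 - m then 1 else 0).sum)) =
    (ct (dc ν) l (z - 1) + ct (fun μ => -dc ν μ) l (z - 1)) +
      (ct (dc ν) l (z - 2) + ct (fun μ => -dc ν μ) l (z - 2)) := by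
  classical
  induction l with
  | nil => simp [ct]
  | cons μ l ih =>
    have h := par_step (dc ν μ) z (dt ε μ)
    unfold ct at ih ⊢
    simp only [List.map_cons, List.sum_cons] at ih ⊢
    linarith only [ih, h]

theorem arch_rel {ν : Fin r → ℂ} {ε : Fin r → ℤ} {m m' : J → List ℂ}
    (hm : ∀ j, m j = (W j).map fun μ => dc ν μ + ((dt ε μ % 2 : ℤ) : ℂ))
    (hm' : ∀ j, m' j = (W j).map fun μ => -dc ν μ + ((dt ε μ % 2 : ℤ) : ℂ))
    (h : ∀ z : ℂ, ∑ j, c j * (((mo (gi (m j)) (1 - z) : ℝ) + mo (gi (m' j)) (1 - z)) -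
      (mo (gi (m j)) z + mo (gi (m' j)) z)) = 0) (z : ℂ) :
    ∑ j, c j * (ct (dc ν) (W j) z + ct (fun μ => -dc ν μ) (W j) z) = 0 := by
  classical
  set Ψ : ℂ → ℝ := fun z => ∑ j, c j * (ct (dc ν) (W j) z + ct (fun μ => -dc ν μ) (W j) z) with hΨ
  have h1 : ∀ z, Ψ (z - 1) + Ψ (z - 2) = 0 := by
    intro z
    have h2 := h z
    have h3 := h (z - 2)
    rw [← sub_eq_zero.2 (h2.trans h3.symm)]
    simp only [hΨ]
    rw [← Finset.sum_add_distrib, ← Finset.sum_sub_distrib]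
    refine Finset.sum_congr rfl fun j _ => ?_
    rw [← mul_add, ← mul_sub, ← list_step ν ε (W j) z, ← hm j, ← hm' j, ← gi_diff2, ← gi_diff2]
    congr 1
    ring
  obtain ⟨C, hC⟩ : ∃ C : ℝ, ∀ j, ∀ μ ∈ W j, |(dc ν μ).re| ≤ C := by
    refine ⟨∑ j, ((W j).map fun μ => |(dc ν μ).re|).sum, fun j μ hμ => ?_⟩
    have h2 : |(dc ν μ).re| ≤ ((W j).map fun μ => |(dc ν μ).re|).sum := by
      refine List.single_le_sum (fun y hy => ?_) _ (List.mem_map.2 ⟨μ, hμ, rfl⟩)
      rw [List.mem_map] at hy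
      obtain ⟨μ', -, rfl⟩ := hy
      exact abs_nonneg _
    refine h2.trans (Finset.single_le_sum (f := fun j => ((W j).map fun μ => |(dc ν μ).re|).sum)
      (fun i _ => List.sum_nonneg fun y hy => ?_) (Finset.mem_univ j))
    rw [List.mem_map] at hy
    obtain ⟨μ', -, rfl⟩ := hy
    exact abs_nonneg _
  have h2 : ∀ z : ℂ, z.re < -C → Ψ z = 0 := by
    intro z hz
    refine Finset.sum_eq_zero fun j _ => ?_
    have a1 : ct (dc ν) (W j) z = 0 := by
      by_contra h0
      obtain ⟨μ, hμ, h3⟩ := ct_ne h0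
      have h4 := hC j μ hμ
      rw [h3] at h4
      have := neg_abs_le z.re
      linarith
    have a2 : ct (fun μ => -dc ν μ) (W j) z = 0 := by
      by_contra h0
      obtain ⟨μ, hμ, h3⟩ := ct_ne h0
      have h4 := hC j μ hμ
      have h5 : (dc ν μ).re = -z.re := by
        rw [← h3, neg_re, neg_neg]
      rw [h5] at h4
      have := le_abs_self (-z.re)
      linarith
    rw [a1, a2, add_zero, mul_zero]
  have h3 : ∀ (n : ℕ) (z : ℂ), z.re - n < -C → Ψ z = 0 := by
    intro n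
    induction n with
    | zero =>
      intro z hz
      exact h2 z (by simpa using hz)
    | succ n ih =>
      intro z hz
      have h4 := h1 (z + 1)
      have e1 : z + 1 - 1 = z := by ring
      have e2 : z + 1 - 2 = z - 1 := by ring
      rw [e1, e2, ih (z - 1) (by
        rw [sub_re, one_re]
        push_cast at hz
        linarith), add_zero] at h4
      exact h4
  obtain ⟨n, hn⟩ := exists_nat_gt (z.re + C)
  exact h3 n z (by linarith)

/-- multiplicities -/
theorem Bm_ct (x : ℕ → Fin r → ℂ) (p : ℕ) (z : ℂ) :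
    Bm (fun j => Finset.range (W j).length) (fun j p i => mono (x p) ((W j).getD i 0)) c p z =
      ∑ j, c j * ct (mono (x p)) (W j) z := by
  classical
  unfold Bm ct
  refine Finset.sum_congr rfl fun j _ => ?_
  congr 1
  rw [← sum_getD (W j) 0 fun μ => if mono (x p) μ = z then (1 : ℝ) else 0]

theorem mono_ne {x : Fin r → ℂ} (hx : ∀ k, x k ≠ 0) (μ : Fin r → ℤ) : mono x μ ≠ 0 :=
  Finset.prod_ne_zero_iff.2 fun k _ => zpow_ne_zero _ (hx k)

theorem map_ps (x : ℕ → Fin r → ℂ) (l : List (Fin r → ℤ)) (p k : ℕ) :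
    ps (Finset.range l.length) (fun p i => mono (x p) (l.getD i 0)) p k =
      (l.map fun μ => mono (x p) μ ^ k).sum := by
  unfold ps
  exact sum_getD l 0 fun μ => mono (x p) μ ^ k

theorem map_ps' (x : ℕ → Fin r → ℂ) (l : List (Fin r → ℤ)) (p k : ℕ) :
    ps (Finset.range l.length) (fun p i => (mono (x p) (l.getD i 0))⁻¹) p k =
      (l.map fun μ => (mono (x p) μ)⁻¹ ^ k).sum := by
  unfold ps
  exact sum_getD l 0 fun μ => (mono (x p) μ)⁻¹ ^ k

/-- **the main theorem for lists** -/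
theorem split_main {S : Finset ℕ} {x : ℕ → Fin r → ℂ} {m m' : J → List ℂ} {N D N' D' : J → ℂ → ℂ}
    {g : ℕ → ℝ} {B : ℝ} (hx : ∀ p : ℕ, p.Prime → p ∉ S → ∀ k, x p k ≠ 0)
    (hherm : ∀ p : ℕ, p.Prime → p ∉ S → ∀ j,
      ((W j).map fun μ => ((starRingEnd ℂ) (mono (x p) μ))⁻¹).Perm ((W j).map (mono (x p))))
    (hL : ∀ j, Half S (W j).length (fun p i => mono (x p) ((W j).getD i 0)) (N j) (D j))
    (hL' : ∀ j, Half S (W j).length (fun p i => (mono (x p) ((W j).getD i 0))⁻¹) (N' j) (D' j))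
    (hF : ∀ j, FEq S (m j) (m' j) (N j) (D j) (N' j) (D' j))
    (hg0 : ∀ p, 0 ≤ g p) (hlit : Lit S g)
    (hbd : ∀ p : ℕ, p.Prime → p ∉ S →
      ((∀ j, ∀ μ ∈ W j, ‖mono (x p) μ‖ ≤ B) ∧
        ‖∑ j, (c j : ℂ) * ((W j).map (mono (x p))).sum‖ ≤ g p) ∨
      ∀ j, ∀ μ ∈ W j, ‖mono (x p) μ‖ ≤ g p) (hdom : Dom W c) :
    (∀ p : ℕ, p.Prime → p ∉ S →
      (∀ k : ℕ, ∑ j, (c j : ℂ) * ((W j).map fun μ => mono (x p) μ ^ (k + 1)).sum = 0) ∧
      ∃ n : ℕ, 0 < n ∧ ∃ z : ℂ, ‖z‖ = 1 ∧ ∀ j, ∀ μ ∈ W j, mono (x p) μ ^ n = z) ∧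
    ∑ j, c j * (W j).length = 0 ∧
    ∀ (ν : Fin r → ℂ) (ε : Fin r → ℤ),
      (∀ j, m j = (W j).map fun μ => dc ν μ + ((dt ε μ % 2 : ℤ) : ℂ)) →
      (∀ j, m' j = (W j).map fun μ => -dc ν μ + ((dt ε μ % 2 : ℤ) : ℂ)) →
      ∀ i j, ∀ μ ∈ W i, ∀ μ' ∈ W j, dc ν μ = dc ν μ' := by
  classical
  have hdual : ∀ p : ℕ, p.Prime → p ∉ S → ∀ j, ∀ μ ∈ W j, ∃ μ' ∈ W j,
      ‖(mono (x p) μ)⁻¹‖ = ‖mono (x p) μ'‖ := by
    intro p hp hpS j μ hμ
    have h1 : ((starRingEnd ℂ) (mono (x p) μ))⁻¹ ∈ (W j).map (mono (x p)) :=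
      (hherm p hp hpS j).mem_iff.1 (List.mem_map.2 ⟨μ, hμ, rfl⟩)
    obtain ⟨μ', hμ', h2⟩ := List.mem_map.1 h1
    refine ⟨μ', hμ', ?_⟩
    rw [h2, norm_inv, norm_inv, Complex.norm_conj]
  have hconj : ∀ p : ℕ, p.Prime → p ∉ S → ∀ j, ((W j).map fun μ => (mono (x p) μ)⁻¹).sum =
      (starRingEnd ℂ) ((W j).map (mono (x p))).sum := by
    intro p hp hpS j
    have h1 := ((hherm p hp hpS j).map fun y => y⁻¹).sum_eq
    rw [List.map_map, List.map_map] at h1
    rw [map_list_sum, List.map_map]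
    rw [show ((fun y : ℂ => y⁻¹) ∘ mono (x p)) = fun μ => (mono (x p) μ)⁻¹ from rfl] at h1
    rw [← h1]
    congr 1
    refine List.map_congr_left fun μ _ => ?_
    simp
  have hmem : ∀ {l : List (Fin r → ℤ)} {i : ℕ}, i < l.length → l.getD i 0 ∈ l := by
    intro l i hi
    rw [List.getD_eq_getElem _ _ hi]
    exact List.getElem_mem hi
  obtain ⟨h1, h2⟩ := gap_gen (n := fun j => (W j).length) (c := c) (g := g) (B := B) hL hL' hF
    (fun j p _ _ i _ => rfl) hg0 hlit (fun p hp hpS => by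
      rcases hbd p hp hpS with ⟨a1, a2⟩ | a1
      · left
        refine ⟨fun j i hi => ⟨a1 j _ (hmem hi), ?_⟩, ?_, ?_⟩
        · obtain ⟨μ', hμ', h3⟩ := hdual p hp hpS j _ (hmem hi)
          rw [h3]
          exact a1 j μ' hμ'
        · simp only [map_ps, pow_one]
          exact a2
        · simp only [map_ps', pow_one]
          have h3 : ∑ j, (c j : ℂ) * ((W j).map fun μ => (mono (x p) μ)⁻¹).sum =
              (starRingEnd ℂ) (∑ j, (c j : ℂ) * ((W j).map (mono (x p))).sum) := by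
            rw [map_sum]
            refine Finset.sum_congr rfl fun j _ => ?_
            rw [map_mul, Complex.conj_ofReal, hconj p hp hpS j]
          rw [h3, Complex.norm_conj]
          exact a2
      · right
        intro j i hi
        refine ⟨a1 j _ (hmem hi), ?_⟩
        obtain ⟨μ', hμ', h3⟩ := hdual p hp hpS j _ (hmem hi)
        rw [h3]
        exact a1 j μ' hμ')
  have hzero : ∀ p : ℕ, p.Prime → p ∉ S → ∀ z : ℂ, z ≠ 0 →
      ∑ j, c j * ct (mono (x p)) (W j) z = 0 := by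
    intro p hp hpS z hz
    rw [← Bm_ct x p z]
    exact Bm_vanish (fun k => h1 p hp hpS k) hz
  have hfin : ∀ p : ℕ, p.Prime → p ∉ S →
      ∃ n : ℕ, 0 < n ∧ ∃ z : ℂ, ‖z‖ = 1 ∧ ∀ j, ∀ μ ∈ W j, mono (x p) μ ^ n = z := by
    intro p hp hpS
    by_cases hne : ∃ i, ∃ μ, μ ∈ W i
    · obtain ⟨i₀, μ₀, hμ₀⟩ := hne
      set U : Finset (Fin r → ℤ) := Finset.univ.biUnion fun j => (W j).toFinset with hU
      have hUm : ∀ μ, μ ∈ U ↔ ∃ j, μ ∈ W j := by
        intro μ
        rw [hU, Finset.mem_biUnion]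
        constructor
        · rintro ⟨j, -, hj⟩
          exact ⟨j, List.mem_toFinset.1 hj⟩
        · rintro ⟨j, hj⟩
          exact ⟨j, Finset.mem_univ _, List.mem_toFinset.2 hj⟩
      have hex : ∀ μ : Fin r → ℤ, ∃ n : ℕ, 0 < n ∧ (μ ∈ U → mono (x p) μ ^ n = mono (x p) μ₀ ^ n) := by
        intro μ
        by_cases hμ : μ ∈ U
        · obtain ⟨j, hj⟩ := (hUm μ).1 hμ
          obtain ⟨n, hn, h3⟩ := fin_order hdom (hx p hp hpS) (hzero p hp hpS) hj hμ₀
          exact ⟨n, hn, fun _ => h3⟩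
        · exact ⟨1, one_pos, fun h => absurd h hμ⟩
      choose n hn hnU using hex
      set M : ℕ := ∏ μ ∈ U, n μ with hM
      have hM0 : 0 < M := Finset.prod_pos fun μ _ => hn μ
      have hall : ∀ j, ∀ μ ∈ W j, mono (x p) μ ^ M = mono (x p) μ₀ ^ M := by
        intro j μ hμ
        have hμU := (hUm μ).2 ⟨j, hμ⟩
        obtain ⟨e, he⟩ := Finset.dvd_prod_of_mem n hμU
        rw [hM, he, pow_mul, pow_mul, hnU μ hμU]
      refine ⟨M, hM0, mono (x p) μ₀ ^ M, ?_, hall⟩
      obtain ⟨μ', hμ', h3⟩ := hdual p hp hpS i₀ μ₀ hμ₀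
      have h4 := congrArg norm (hall i₀ μ' hμ')
      rw [norm_pow, norm_pow, ← h3, norm_inv, inv_pow] at h4
      have h5 : 0 < ‖mono (x p) μ₀‖ ^ M := pow_pos (norm_pos_iff.2 (mono_ne (hx p hp hpS) μ₀)) _
      have h6 : (‖mono (x p) μ₀‖ ^ M) * (‖mono (x p) μ₀‖ ^ M) = 1 := by
        nth_rw 1 [← h4]
        exact inv_mul_cancel₀ h5.ne'
      rw [norm_pow]
      nlinarith
    · push Not at hne
      exact ⟨1, one_pos, 1, norm_one, fun j μ hμ => absurd hμ (hne j μ)⟩
  have hpow : ∀ p : ℕ, p.Prime → p ∉ S → ∀ k : ℕ,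
      ∑ j, (c j : ℂ) * ((W j).map fun μ => mono (x p) μ ^ (k + 1)).sum = 0 := by
    intro p hp hpS k
    have := h1 p hp hpS k
    simpa only [map_ps] using this
  refine ⟨fun p hp hpS => ⟨hpow p hp hpS, hfin p hp hpS⟩, ?_, fun ν ε hm hm' i j μ hμ μ' hμ' =>
    inf_zero hdom (fun z => arch_rel hm hm' h2 z) hμ hμ'⟩
  obtain ⟨p, hp, hpS⟩ := Nat.infinite_setOfPred_prime.exists_notMem_finset S
  obtain ⟨n, hn, z, hz, hall⟩ := hfin p hp hpS
  have h3 := hpow p hp hpS (n - 1)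
  rw [Nat.sub_add_cancel hn] at h3
  have h4 : ∀ j, ((W j).map fun μ => mono (x p) μ ^ n).sum = ((W j).length : ℂ) * z := by
    intro j
    rw [List.map_congr_left (g := fun _ => z) fun μ hμ => hall j μ hμ, List.map_const',
      List.sum_replicate, nsmul_eq_mul]
  simp only [h4, ← mul_assoc, ← Finset.sum_mul] at h3
  have hz0 : z ≠ 0 := by
    intro h
    rw [h, norm_zero] at hz
    norm_num at hz
  have h5 := (mul_eq_zero.1 h3).resolve_right hz0
  exact_mod_cast h5

end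

end Pool.Agent.U253.SPL
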