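import Pool.Agent.U253.SPL.Uni
import Pool.Agent.U857.GS.Weyl

/-!
# The groups `GSp(2n)`: one small relation and continuation for all representations
-/

set_option autoImplicit false

namespace Pool.Agent.U253.SPL

open Filter Topology Complex Pool.Agent.N210.FV Pool.Agent.N210.FW Pool.Agent.N845.SP
open Pool.Agent.U253.GAP
open Pool.Agent.U253.EEA (Half FEq mo_app)
open Pool.Agent.U857.GS (Cont Wt mval rfl1 WInv toChar toChar_apply EM EM_rel ofNice nice_sum integ
  tr_add tr_sum exists_gen char_ext)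

section

variable {Λ : Type} [AddCommGroup Λ]

theorem char_finite {r : ℕ} {e : Fin r → Λ} (he : AddSubgroup.closure (Set.range e) = ⊤) {n : ℕ}
    (hn : 0 < n) : {v : AddChar Λ ℂ | v ^ n = 1}.Finite := by
  classical
  have hsf : {z : ℂ | z ^ n = 1}.Finite := by
    have h1 : {z : ℂ | z ^ n = 1} = ((Polynomial.nthRoots n (1 : ℂ)).toFinset : Set ℂ) := by
      ext z
      simp [Polynomial.mem_nthRoots hn]
    rw [h1]
    exact Finset.finite_toSet _
  have h1 : (Set.pi Set.univ fun _ : Fin r => {z : ℂ | z ^ n = 1}).Finite :=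
    Set.Finite.pi fun _ => hsf
  refine Set.Finite.of_finite_image (f := fun v : AddChar Λ ℂ => fun i => v (e i)) (h1.subset ?_) ?_
  · rintro _ ⟨v, hv, rfl⟩ i _
    show v (e i) ^ n = 1
    rw [← AddChar.pow_apply, show v ^ n = 1 from hv, AddChar.one_apply]
  · intro v _ v' _ h
    exact char_ext he fun i => congrFun h i

/-- **finitely many Euler products continue all of them** -/
theorem cont_all {r : ℕ} {e : Fin r → Λ} (he : AddSubgroup.closure (Set.range e) = ⊤) {n : ℕ}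
    (hn : 0 < n) (R : Set (Multiset Λ)) : ∃ R₀ : Finset (Multiset Λ), (∀ x ∈ R₀, x ∈ R) ∧
    ∀ (S : Finset ℕ) (u : ℕ → AddChar Λ ℂ), (∀ p : ℕ, p.Prime → p ∉ S → u p ^ n = 1) →
      (∀ x ∈ R₀, ∃ N D, Cont S (fun p => u p) x N D) →
      ∀ (M : Multiset Λ) (A B : Multiset (Multiset Λ)), (∀ x ∈ A, x ∈ R) → (∀ x ∈ B, x ∈ R) →
        M + A.sum = B.sum → ∃ N D, Cont S (fun p => u p) M N D := by
  classical
  set U : Finset (AddChar Λ ℂ) := (char_finite he hn).toFinset with hU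
  have hUm : ∀ v, v ∈ U ↔ v ^ n = 1 := fun v => by rw [hU, Set.Finite.mem_toFinset]; rfl
  obtain ⟨R₀, hR₀, hint⟩ := integ U hn (fun u hu => (hUm u).1 hu) R
  refine ⟨R₀, hR₀, fun S u htor hLn M A' B' hA' hB' hM => ?_⟩
  have hUp : ∀ p : ℕ, p.Prime → p ∉ S → ∀ k : ℕ, u p ^ (k + 1) ∈ U := fun p hp hpS k => by
    rw [hUm, ← pow_mul, mul_comm, pow_mul, htor p hp hpS, one_pow]
  have hnorm : ∀ p : ℕ, p.Prime → p ∉ S → ∀ k, ‖u p k‖ = 1 := by
    intro p hp hpS k
    refine norm_eq_one_of_pow_eq_one (n := n) ?_ hn.ne'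
    rw [← AddChar.pow_apply, htor p hp hpS, AddChar.one_apply]
  choose! c hc using hint
  set C : Multiset Λ → ℤ := fun j => (B'.map fun x => c x j).sum - (A'.map fun x => c x j).sum with hC
  have hsumU : ∀ (B : Multiset (Multiset Λ)), (∀ x ∈ B, x ∈ R) → ∀ v ∈ U,
      (B.map fun x => Pool.Agent.U857.GS.tr x v).sum =
        ∑ j ∈ R₀, (((B.map fun x => c x j).sum : ℤ) : ℂ) * Pool.Agent.U857.GS.tr j v := by
    intro B hB v hv
    induction B using Multiset.induction with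
    | empty => simp
    | cons x B ih =>
      rw [Multiset.map_cons, Multiset.sum_cons, ih fun y hy => hB y (Multiset.mem_cons_of_mem hy),
        hc x (hB x (Multiset.mem_cons_self _ _)) v hv, ← Finset.sum_add_distrib]
      refine Finset.sum_congr rfl fun j _ => ?_
      rw [Multiset.map_cons, Multiset.sum_cons]
      push_cast
      ring
  have hMU : ∀ v ∈ U, Pool.Agent.U857.GS.tr M v =
      ∑ j ∈ R₀, (C j : ℂ) * Pool.Agent.U857.GS.tr j v := by
    intro v hv
    have h1 := congrArg (fun M => Pool.Agent.U857.GS.tr M v) hM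
    simp only [tr_add, tr_sum] at h1
    rw [hsumU A' hA' v hv, hsumU B' hB' v hv] at h1
    simp only [hC]
    push_cast at h1 ⊢
    simp only [sub_mul, Finset.sum_sub_distrib]
    linear_combination h1
  obtain ⟨N', D', hN⟩ := nice_sum (S := S) (R₀ := R₀) (E := fun j => EM u j) (fun j hj => by
    obtain ⟨N, D, h1⟩ := hLn j hj
    exact ⟨N, D, h1.toNice hnorm⟩) C
  refine ⟨N', D', ofNice (g := 0) (hN.congr fun p hp hpS s hs => ?_) hnorm⟩
  symm
  exact EM_rel hp (hnorm p hp hpS) (fun k => hMU _ (hUp p hp hpS k)) hs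

end

section

variable {n : ℕ}

/-- weights as vectors -/
def en (k : Wt n) : Fin (n + 1) → ℤ := Fin.cons k.1 k.2

/-- parameters as vectors -/
def xx (α : ℂ × (Fin n → ℂ)) : Fin (n + 1) → ℂ := Fin.cons α.1 α.2

/-- the pairing of weights and coweights -/
def pr (a k : Wt n) : ℤ := a.1 * k.1 + ∑ i, a.2 i * k.2 i

theorem mono_en (α : ℂ × (Fin n → ℂ)) (k : Wt n) : mono (xx α) (en k) = mval α k := by
  unfold mono mval xx en
  rw [Fin.prod_univ_succ]
  simp

theorem dt_en (a : Fin (n + 1) → ℤ) (k : Wt n) : dt a (en k) = pr (a 0, fun i => a i.succ) k := by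
  unfold dt pr en
  rw [Fin.sum_univ_succ]
  simp

theorem mono_en' (α : ℂ × (Fin n → ℂ)) : (mono (xx α) ∘ en) = fun k : Wt n => mval α k :=
  funext fun k => mono_en α k

/-- positivity -/
def Pos {J : Type} (ρ : J → Multiset (Wt n)) (c : J → ℝ) : Prop :=
  ∀ a : Wt n, 2 * a.1 + ∑ i, a.2 i = 0 →
    (∃ i, ∃ j, ∃ k ∈ ρ i, ∃ k' ∈ ρ j, pr a k ≠ pr a k') →
    ∀ j, ∀ k ∈ ρ j, (∀ i, ∀ k' ∈ ρ i, pr a k' ≤ pr a k) → 0 < c j

theorem mval_neg (α : ℂ × (Fin n → ℂ)) (k : Wt n) : mval α (-k) = (mval α k)⁻¹ := by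
  unfold mval
  simp only [Prod.fst_neg, Prod.snd_neg, Pi.neg_apply, zpow_neg, mul_inv, ← Finset.prod_inv_distrib]

/-- **the main theorem for `GSp(2n)`** -/
theorem gsp_main (n h : ℕ) (hh : 0 < h) (R : Set (Multiset (Wt n)))
    (hspan : ∀ M : Multiset (Wt n), WInv M → ∃ A B : Multiset (Multiset (Wt n)),
      (∀ x ∈ A, x ∈ R) ∧ (∀ x ∈ B, x ∈ R) ∧ M + A.sum = B.sum)
    {J : Type} [Fintype J] (ρ : J → Multiset (Wt n)) (hρ : ∀ j, WInv (ρ j))
    (hnt : ∃ j, ∃ k ∈ ρ j, ∃ i, 2 * k.2 i ≠ k.1) (c : J → ℝ) (hc : Pos ρ c) :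
    ∃ (L : Finset (Multiset (Wt n))) (m : ℕ), (∀ x ∈ L, x ∈ R) ∧ 0 < m ∧
      ∀ (S : Finset ℕ) (α : ℕ → ℂ × (Fin n → ℂ)),
        (∀ p : ℕ, p.Prime → p ∉ S → (α p).1 ≠ 0 ∧ ∀ i, (α p).2 i ≠ 0) →
        (∀ p : ℕ, p.Prime → p ∉ S → ((α p).1 ^ 2 * ∏ i, (α p).2 i) ^ h = 1) →
        (∀ p : ℕ, p.Prime → p ∉ S → ∀ j, ((ρ j).map fun k => ((starRingEnd ℂ) (mval (α p) k))⁻¹) =
          (ρ j).map (mval (α p))) →
        (∀ j, ∃ (N D N' D' : ℂ → ℂ) (κ κ' : List ℂ), Cont S (fun p => mval (α p)) (ρ j) N D ∧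
          Cont S (fun p => mval (α p)) ((ρ j).map fun k => -k) N' D' ∧ FEq S κ κ' N D N' D') →
        ∀ (g : ℕ → ℝ) (B : ℝ), (∀ p, 0 ≤ g p) → Lit S g →
        (∀ p : ℕ, p.Prime → p ∉ S →
          ((∀ j, ∀ k ∈ ρ j, ‖mval (α p) k‖ ≤ B) ∧
            ‖∑ j, (c j : ℂ) * ((ρ j).map (mval (α p))).sum‖ ≤ g p) ∨
          ∀ j, ∀ k ∈ ρ j, ‖mval (α p) k‖ ≤ g p) →
        (∀ p : ℕ, p.Prime → p ∉ S → (α p).1 ^ m = 1 ∧ ∀ i, (α p).2 i ^ m = 1) ∧
        ((∀ x ∈ L, ∃ N D : ℂ → ℂ, Cont S (fun p => mval (α p)) x N D) →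
        ∀ M : Multiset (Wt n), WInv M → ∃ N D : ℂ → ℂ, Cont S (fun p => mval (α p)) M N D) := by
  classical
  set W : J → List (Fin (n + 1) → ℤ) := fun j => (ρ j).toList.map en with hW
  set K : Set (Fin (n + 1) → ℤ) := {en ((2 * (h : ℤ), fun _ => (h : ℤ)) : Wt n)} with hK
  have hWm : ∀ j μ, μ ∈ W j ↔ ∃ k ∈ ρ j, en k = μ := by
    intro j μ
    simp only [hW, List.mem_map, Multiset.mem_toList]
  have hdom : DomK K W c := by
    intro a haK hne j μ hμ hmax
    obtain ⟨k, hk, rfl⟩ := (hWm j μ).1 hμ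
    have ha : 2 * (a 0) + ∑ i, (fun i : Fin n => a i.succ) i = 0 := by
      have h1 := haK _ (Set.mem_singleton _)
      rw [dt_en] at h1
      unfold pr at h1
      simp only at h1
      have h2 : (h : ℤ) * (2 * (a 0) + ∑ i : Fin n, a i.succ) = 0 := by
        rw [← h1, mul_add, Finset.mul_sum]
        congr 1
        · ring
        · exact Finset.sum_congr rfl fun i _ => mul_comm _ _
      rcases mul_eq_zero.1 h2 with h3 | h3
      · have : h = 0 := by exact_mod_cast h3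
        omega
      · exact h3
    refine hc (a 0, fun i => a i.succ) ha ?_ j k hk ?_
    · obtain ⟨i, i', μ, hμ, μ', hμ', hne⟩ := hne
      obtain ⟨k, hk, rfl⟩ := (hWm i μ).1 hμ
      obtain ⟨k', hk', rfl⟩ := (hWm i' μ').1 hμ'
      rw [dt_en, dt_en] at hne
      exact ⟨i, i', k, hk, k', hk', hne⟩
    · intro i k' hk'
      have := hmax i (en k') ((hWm i _).2 ⟨k', hk', rfl⟩)
      rwa [dt_en, dt_en] at this
  obtain ⟨m₁, hm₁, huni⟩ := uniform hdom
  obtain ⟨j₀, k₀, hk₀, i₀, hi₀⟩ := hnt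
  set d : ℕ := (2 * k₀.2 i₀ - k₀.1).natAbs with hd
  have hd0 : 0 < d := by
    rw [hd]
    exact Int.natAbs_pos.2 (sub_ne_zero.2 hi₀)
  obtain ⟨r, e, he⟩ := exists_gen n
  set m : ℕ := 2 * h * d * m₁ with hm
  have hm0 : 0 < m := by positivity
  obtain ⟨L, hL, hcont⟩ := cont_all he hm0 R
  refine ⟨L, m, hL, hm0, ?_⟩
  intro S α h0 hω hun hnice g B hg hlit hsm
  have hx : ∀ p : ℕ, p.Prime → p ∉ S → ∀ k, xx (α p) k ≠ 0 := by
    intro p hp hpS k
    refine Fin.cases ?_ (fun i => ?_) k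
    · exact (h0 p hp hpS).1
    · exact (h0 p hp hpS).2 i
  choose N D N' D' κ κ' hC hC' hFE using hnice
  have hmapW : ∀ {β : Type} (j : J) (f : (Fin (n + 1) → ℤ) → β),
      (((W j).map f : List β) : Multiset β) = (ρ j).map fun k => f (en k) := by
    intro β j f
    simp only [hW]
    rw [List.map_map, ← Multiset.map_coe, Multiset.coe_toList]
    rfl
  have hz := zero_main (W := W) (c := c) (S := S) (x := fun p => xx (α p)) (m := κ) (m' := κ')
    (N := N) (D := D) (N' := N') (D' := D') (g := g) (B := B)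
    (fun p hp hpS j => by
      rw [← Multiset.coe_eq_coe, hmapW, hmapW]
      have h1 := hun p hp hpS j
      simp only [mono_en]
      exact h1)
    (fun j => by
      obtain ⟨a1, a2, a3, a4, a5⟩ := hC j
      refine ⟨a1, a2, a3, a4, fun s hs => (a5 s hs).congr fun X => ?_⟩
      refine Finset.prod_congr rfl fun p _ => ?_
      rw [prod_getD (W j) 0 (fun μ => (1 - mono (xx (α p)) μ * (p : ℂ) ^ (-s))⁻¹),
        ← Multiset.prod_coe, hmapW]
      simp only [mono_en])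
    (fun j => by
      obtain ⟨a1, a2, a3, a4, a5⟩ := hC' j
      refine ⟨a1, a2, a3, a4, fun s hs => (a5 s hs).congr fun X => ?_⟩
      refine Finset.prod_congr rfl fun p _ => ?_
      rw [prod_getD (W j) 0 (fun μ => (1 - (mono (xx (α p)) μ)⁻¹ * (p : ℂ) ^ (-s))⁻¹),
        ← Multiset.prod_coe, hmapW, Multiset.map_map]
      simp only [mono_en, Function.comp_def, mval_neg])
    hFE hg hlit
    (fun p hp hpS => by
      rcases hsm p hp hpS with ⟨h1, h2⟩ | h1
      · left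
        refine ⟨fun j μ hμ => ?_, ?_⟩
        · obtain ⟨k, hk, rfl⟩ := (hWm j μ).1 hμ
          rw [mono_en]
          exact h1 j k hk
        · have h3 : ∀ j, ((W j).map (mono (xx (α p)))).sum = ((ρ j).map (mval (α p))).sum := by
            intro j
            rw [← Multiset.sum_coe, hmapW]
            simp only [mono_en]
          simp only [h3]
          exact h2
      · right
        intro j μ hμ
        obtain ⟨k, hk, rfl⟩ := (hWm j μ).1 hμ
        rw [mono_en]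
        exact h1 j k hk)
  have htor : ∀ p : ℕ, p.Prime → p ∉ S → (α p).1 ^ m = 1 ∧ ∀ i, (α p).2 i ^ m = 1 := by
    intro p hp hpS
    have hKp : ∀ κ ∈ K, mono (xx (α p)) κ = 1 := by
      intro κ hκ
      rw [Set.mem_singleton_iff.1 hκ, mono_en]
      unfold mval
      simp only
      rw [← hω p hp hpS, mul_pow, ← pow_mul, ← Finset.prod_pow]
      congr 1
    have h1 := huni (xx (α p)) (hx p hp hpS) hKp (hz p hp hpS)
    have h2 : ∀ k ∈ ρ j₀, ∀ k' ∈ ρ j₀, mval (α p) k ^ m₁ = mval (α p) k' ^ m₁ := by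
      intro k hk k' hk'
      have := h1 j₀ j₀ (en k) ((hWm _ _).2 ⟨k, hk, rfl⟩) (en k') ((hWm _ _).2 ⟨k', hk', rfl⟩)
      rwa [mono_en, mono_en] at this
    have h3 : ∀ i, (α p).2 i ^ (d * m₁) = 1 := by
      intro i
      set k₁ : Wt n := (k₀.1, k₀.2 ∘ Equiv.swap i₀ i) with hk₁
      have hk₁m : k₁ ∈ ρ j₀ := by
        rw [← (hρ j₀).perm (Equiv.swap i₀ i)]
        exact Multiset.mem_map.2 ⟨k₀, hk₀, rfl⟩
      have hk₂m : rfl1 i k₁ ∈ ρ j₀ := by
        rw [← (hρ j₀).refl i]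
        exact Multiset.mem_map.2 ⟨k₁, hk₁m, rfl⟩
      have h4 := h2 k₁ hk₁m _ hk₂m
      have hai := (h0 p hp hpS).2 i
      have hk₁i : k₁.2 i = k₀.2 i₀ := by
        simp [hk₁]
      have h5 : mval (α p) k₁ = mval (α p) (rfl1 i k₁) * (α p).2 i ^ (2 * k₀.2 i₀ - k₀.1) := by
        unfold mval rfl1
        simp only
        rw [mul_assoc]
        congr 1
        rw [← Finset.mul_prod_erase _ _ (Finset.mem_univ i),
          ← Finset.mul_prod_erase _ (fun j => (α p).2 j ^ (Function.update k₁.2 i (k₁.1 - k₁.2 i) j))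
            (Finset.mem_univ i)]
        have e1 : ∏ j ∈ Finset.univ.erase i,
            (α p).2 j ^ (Function.update k₁.2 i (k₁.1 - k₁.2 i) j) =
            ∏ j ∈ Finset.univ.erase i, (α p).2 j ^ k₁.2 j := by
          refine Finset.prod_congr rfl fun j hj => ?_
          rw [Function.update_of_ne (Finset.ne_of_mem_erase hj)]
        rw [e1, Function.update_self, mul_right_comm, ← zpow_add₀ hai]
        congr 2
        rw [hk₁i]
        simp only [hk₁]
        ring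
      rw [h5, mul_pow] at h4
      have h6 : mval (α p) (rfl1 i k₁) ^ m₁ ≠ 0 := by
        refine pow_ne_zero _ ?_
        rw [← mono_en]
        exact mono_ne (hx p hp hpS) _
      have h7 : ((α p).2 i ^ (2 * k₀.2 i₀ - k₀.1)) ^ m₁ = 1 := by
        have h8 : mval (α p) (rfl1 i k₁) ^ m₁ * ((α p).2 i ^ (2 * k₀.2 i₀ - k₀.1)) ^ m₁ =
            mval (α p) (rfl1 i k₁) ^ m₁ * 1 := by rw [h4, mul_one]
        exact mul_left_cancel₀ h6 h8
      rcases Int.natAbs_eq (2 * k₀.2 i₀ - k₀.1) with h8 | h8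
      · rw [h8, zpow_natCast, ← pow_mul] at h7
        exact h7
      · rw [h8, zpow_neg, inv_pow, inv_eq_one, zpow_natCast, ← pow_mul] at h7
        exact h7
    refine ⟨?_, fun i => ?_⟩
    · have h4 : ((α p).1 ^ 2 * ∏ i, (α p).2 i) ^ (h * (d * m₁)) = 1 := by
        rw [pow_mul, hω p hp hpS, one_pow]
      rw [mul_pow, mul_comm h (d * m₁), pow_mul (∏ i, (α p).2 i), ← Finset.prod_pow] at h4
      simp only [h3, Finset.prod_const_one, one_pow, mul_one] at h4
      rw [← pow_mul] at h4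
      rw [hm, ← h4]
      congr 1
      ring
    · rw [hm, show 2 * h * d * m₁ = (d * m₁) * (2 * h) by ring, pow_mul, h3 i, one_pow]
  refine ⟨htor, fun hnL M hM => ?_⟩
  obtain ⟨A, B', hA, hB', hAB⟩ := hspan M hM
  have hval : ∀ p : ℕ, p.Prime → p ∉ S → ∀ k : Wt n, toChar (α p) k = mval (α p) k :=
    fun p hp hpS k => toChar_apply (h0 p hp hpS).1 (h0 p hp hpS).2 k
  have hprod : ∀ (M : Multiset (Wt n)) (s : ℂ) (X : ℕ),
      ∏ p ∈ (Finset.range X).filter (fun p => p.Prime ∧ p ∉ S),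
        (M.map fun k => (1 - toChar (α p) k * (p : ℂ) ^ (-s))⁻¹).prod =
      ∏ p ∈ (Finset.range X).filter (fun p => p.Prime ∧ p ∉ S),
        (M.map fun k => (1 - mval (α p) k * (p : ℂ) ^ (-s))⁻¹).prod := by
    intro M s X
    refine Finset.prod_congr rfl fun p hp => ?_
    rw [Finset.mem_filter] at hp
    simp only [hval p hp.2.1 hp.2.2]
  obtain ⟨N₁, D₁, h3⟩ := hcont S (fun p => toChar (α p)) (fun p hp hpS => by
    ext k
    rw [AddChar.pow_apply, hval p hp hpS, AddChar.one_apply]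
    unfold mval
    rw [mul_pow, ← zpow_natCast, ← zpow_mul, mul_comm k.1, zpow_mul, zpow_natCast,
      (htor p hp hpS).1, one_zpow, one_mul, ← Finset.prod_pow]
    refine Finset.prod_eq_one fun i _ => ?_
    rw [← zpow_natCast, ← zpow_mul, mul_comm (k.2 i), zpow_mul, zpow_natCast,
      (htor p hp hpS).2 i, one_zpow])
    (fun x hx => by
      obtain ⟨N, D, a1, a2, a3, a4, a5⟩ := hnL x hx
      refine ⟨N, D, a1, a2, a3, a4, fun s hs => ?_⟩
      simp only [hprod]
      exact a5 s hs) M A B' hA hB' hAB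
  refine ⟨N₁, D₁, h3.diffN, h3.diffD, h3.order, h3.ne, fun s hs => ?_⟩
  have h4 := h3.euler s hs
  simp only [hprod] at h4
  exact h4

end

end Pool.Agent.U253.SPL
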