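import Pool.Agent.U253.GAP.Small
import Pool.Agent.U253.EEA.Few2

/-!
# A relation with a small error between arbitrary L-functions is exact
-/

set_option autoImplicit false

namespace Pool.Agent.U253.SPL

open Filter Topology Complex Pool.Agent.N210.FV Pool.Agent.N210.FW Pool.Agent.N845.SP
open Pool.Agent.U253.GAP
open Pool.Agent.U253.EEA (Half FEq bt2 norm_pit norm_pit' ps_bt2 bt2_le mo_app)

theorem norm_ps_le {β : ℕ → ℕ → ℂ} {n p : ℕ} {R : ℝ} (h : ∀ i ∈ Finset.range n, ‖β p i‖ ≤ R)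
    (k : ℕ) : ‖ps (Finset.range n) β p k‖ ≤ n * R ^ k := by
  unfold ps
  refine (norm_sum_le _ _).trans ?_
  have h2 : ∀ i ∈ Finset.range n, ‖β p i ^ k‖ ≤ R ^ k := by
    intro i hi
    rw [norm_pow]
    have h3 := h i hi
    gcongr
  refine (Finset.sum_le_card_nsmul _ _ _ h2).trans ?_
  rw [nsmul_eq_mul, Finset.card_range]

/-- **a relation with a small error is exact** -/
theorem gap_gen {J : Type*} [Fintype J] {S : Finset ℕ} {n : J → ℕ} {β β' : J → ℕ → ℕ → ℂ}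
    {μ μ' : J → List ℂ} {N D N' D' : J → ℂ → ℂ} {c : J → ℝ} {g : ℕ → ℝ} {B : ℝ}
    (hL : ∀ j, Half S (n j) (β j) (N j) (D j)) (hL' : ∀ j, Half S (n j) (β' j) (N' j) (D' j))
    (hF : ∀ j, FEq S (μ j) (μ' j) (N j) (D j) (N' j) (D' j))
    (hinv : ∀ j, ∀ p : ℕ, p.Prime → p ∉ S → ∀ i < n j, β' j p i = (β j p i)⁻¹)
    (hg0 : ∀ p, 0 ≤ g p) (hlit : Lit S g)
    (hbd : ∀ p : ℕ, p.Prime → p ∉ S →
      ((∀ j, ∀ i < n j, ‖β j p i‖ ≤ B ∧ ‖β' j p i‖ ≤ B) ∧
        ‖∑ j, (c j : ℂ) * ps (Finset.range (n j)) (β j) p 1‖ ≤ g p ∧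
        ‖∑ j, (c j : ℂ) * ps (Finset.range (n j)) (β' j) p 1‖ ≤ g p) ∨
      ∀ j, ∀ i < n j, ‖β j p i‖ ≤ g p ∧ ‖β' j p i‖ ≤ g p) :
    (∀ p : ℕ, p.Prime → p ∉ S → ∀ k : ℕ,
      ∑ j, (c j : ℂ) * ps (Finset.range (n j)) (β j) p (k + 1) = 0) ∧
    ∀ z : ℂ, ∑ j, c j * (((mo (gi (μ j)) (1 - z) : ℝ) + mo (gi (μ' j)) (1 - z)) -
      (mo (gi (μ j)) z + mo (gi (μ' j)) z)) = 0 := by
  classical
  set Q : ℕ → Prop := fun p => ((∀ j, ∀ i < n j, ‖β j p i‖ ≤ B ∧ ‖β' j p i‖ ≤ B) ∧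
        ‖∑ j, (c j : ℂ) * ps (Finset.range (n j)) (β j) p 1‖ ≤ g p ∧
        ‖∑ j, (c j : ℂ) * ps (Finset.range (n j)) (β' j) p 1‖ ≤ g p) with hQ
  set ρ : ℝ := max 1 B with hρ
  have hρ1 : 1 ≤ ρ := le_max_left _ _
  obtain ⟨B₀, hB₀⟩ := hlit.point hg0 (ε := 1 / 2) (by norm_num)
  obtain ⟨B₁, hB₁⟩ := exists_nat_ge (4 * ρ ^ 2)
  set S₁ : Finset ℕ := S ∪ Finset.range (max B₀ B₁) with hS₁
  have hSS : S ⊆ S₁ := fun p hp => Finset.mem_union_left _ hp
  have hnS : ∀ p : PS S₁, (p : ℕ) ∉ S := fun p hp => p.2.2 (hSS hp)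
  have hpB : ∀ p : PS S₁, max B₀ B₁ ≤ (p : ℕ) := by
    intro p
    by_contra h1
    push Not at h1
    exact p.2.2 (Finset.mem_union_right _ (Finset.mem_range.2 h1))
  have hlarge : ∀ p : PS S₁, 4 * ρ ^ 2 ≤ (p : ℕ) := fun p =>
    hB₁.trans (by exact_mod_cast (le_max_right B₀ B₁).trans (hpB p))
  have hsq : ∀ p : PS S₁, ρ ≤ √((p : ℕ) : ℝ) / 2 := by
    intro p
    have h1 : 2 * ρ ≤ √((p : ℕ) : ℝ) := by
      refine Real.le_sqrt_of_sq_le ?_
      have := hlarge p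
      nlinarith
    linarith
  have hbsq : ∀ p : PS S₁, g p ≤ √((p : ℕ) : ℝ) / 2 := by
    intro p
    have h1 := hB₀ p p.2.1 (hnS p) ((le_max_left B₀ B₁).trans (hpB p))
    linarith
  -- the radius
  set R : ℕ → ℝ := fun p => if Q p then ρ else g p with hR
  have hR0 : ∀ p, 0 ≤ R p := by
    intro p
    simp only [hR]
    split_ifs
    · linarith
    · exact hg0 p
  have hRsq : ∀ p : PS S₁, R p ≤ √((p : ℕ) : ℝ) / 2 := by
    intro p
    simp only [hR]
    split_ifs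
    · exact hsq p
    · exact hbsq p
  have hbd2 : ∀ (j : J) (p : PS S₁), ∀ i < n j, ‖β j p i‖ ≤ R p ∧ ‖β' j p i‖ ≤ R p := by
    intro j p i hi
    simp only [hR]
    split_ifs with h1
    · have := h1.1 j i hi
      exact ⟨this.1.trans (le_max_right _ _), this.2.trans (le_max_right _ _)⟩
    · exact ((hbd p p.2.1 (hnS p)).resolve_left h1) j i hi
  set F : ℝ → J → ℕ → ℕ → ℂ := fun t j =>
    ps (Finset.range (n j + n j)) (bt2 t (n j) (β j) (β' j)) with hFdef
  have hFb : ∀ (t : ℝ) (j : J) (p : PS S₁) (k : ℕ), ‖F t j p k‖ ≤ ((n j + n j : ℕ) : ℝ) * R p ^ k := by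
    intro t j p k
    exact norm_ps_le (R := R p) (bt2_le (t := t) p.2.1.pos (hbd2 j p)) k
  -- a general decomposition
  have hdecF : ∀ (G : ℕ → ℕ → ℂ) (M : ℝ), 0 ≤ M → (∀ (p : PS S₁) (k : ℕ), ‖G p k‖ ≤ M * R p ^ k) →
      ∀ (q : ℕ → ℂ) (C : ℝ), 0 ≤ C → (∀ p : PS S₁, Q p → ‖q p‖ ≤ C * g p) →
      ∀ Q' : Prop, (Q' → ∀ p : PS S₁, q p = G p 1) →
      Sm S₁ (fun p k => if k = 0 then 0 else if Q p then (if Q' ∧ k = 1 then q p else 0) else
        G p k) ∧
      Bnd S₁ (Fd G fun p k => if k = 0 then 0 else if Q p then (if Q' ∧ k = 1 then q p else 0) else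
        G p k) M ρ := by
    intro G M hM hG q C hC hq Q' hQ'
    constructor
    · refine small_of (v := g) (C := M + C) hg0 (by positivity) hlit hSS fun p k => ?_
      have h0 : 0 ≤ √((p : ℕ) : ℝ) / 2 := by positivity
      have hvp := hg0 p
      simp only [Nat.add_eq_zero_iff, one_ne_zero, and_false, if_false]
      split_ifs with h1 h2
      · have h3 : k = 0 := by omega
        rw [h3, pow_zero, mul_one]
        refine (hq p h1).trans ?_
        gcongr
        linarith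
      · rw [norm_zero]
        positivity
      · refine (hG p (k + 1)).trans ?_
        have h3 : R p = g p := by simp only [hR]; rw [if_neg h1]
        have h4 : R p ^ k ≤ (√((p : ℕ) : ℝ) / 2) ^ k := pow_le_pow_left₀ (hR0 p) (hRsq p) k
        calc M * R p ^ (k + 1) = (M * g p) * R p ^ k := by
              rw [pow_succ, h3]
              ring
          _ ≤ (M * g p) * (√((p : ℕ) : ℝ) / 2) ^ k := by gcongr
          _ ≤ ((M + C) * g p) * (√((p : ℕ) : ℝ) / 2) ^ k := by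
              gcongr
              linarith
    · refine ⟨hM, hρ1, fun p k => ?_, hlarge⟩
      unfold Fd
      have hρk : 0 ≤ M * ρ ^ k := by positivity
      beta_reduce
      split_ifs with h1 h2 h3
      · rw [h1, sub_zero, pow_zero]
        have := hG p 0
        rwa [pow_zero] at this
      · rw [hQ' h3.1 p, h3.2, sub_self, norm_zero]
        rw [h3.2] at hρk
        exact hρk
      · rw [sub_zero]
        have h4 := hG p k
        have h5 : R p = ρ := by simp only [hR]; rw [if_pos h2]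
        rwa [h5] at h4
      · rw [sub_self, norm_zero]
        exact hρk
  have hG1 : ∀ (t : ℝ) (p : PS S₁), Q p → ‖GG c (F t) p 1‖ ≤ 2 * g p := by
    intro t p hQp
    unfold GG
    simp only [hFdef, ps_bt2, mul_add, Finset.sum_add_distrib]
    have e1 : ∑ j, (c j : ℂ) * ((((p : ℕ) : ℂ) ^ (-(t * I))) ^ 1 *
        ps (Finset.range (n j)) (β j) p 1) = (((p : ℕ) : ℂ) ^ (-(t * I))) ^ 1 *
        ∑ j, (c j : ℂ) * ps (Finset.range (n j)) (β j) p 1 := by
      rw [Finset.mul_sum]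
      exact Finset.sum_congr rfl fun j _ => by ring
    have e2 : ∑ j, (c j : ℂ) * ((((p : ℕ) : ℂ) ^ (t * I)) ^ 1 *
        ps (Finset.range (n j)) (β' j) p 1) = (((p : ℕ) : ℂ) ^ (t * I)) ^ 1 *
        ∑ j, (c j : ℂ) * ps (Finset.range (n j)) (β' j) p 1 := by
      rw [Finset.mul_sum]
      exact Finset.sum_congr rfl fun j _ => by ring
    rw [e1, e2]
    refine (norm_add_le _ _).trans ?_
    rw [norm_mul, norm_mul, norm_pow, norm_pow, norm_pit' p.2.1.pos,
      norm_pit p.2.1.pos, one_pow, one_mul, one_mul]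
    have := hQp.2.1
    have := hQp.2.2
    linarith
  set Mc : ℝ := ∑ j, |c j| * ((n j + n j : ℕ) : ℝ) with hMc'
  have hMc : 0 ≤ Mc := Finset.sum_nonneg fun j _ => mul_nonneg (abs_nonneg _) (Nat.cast_nonneg _)
  have hGb : ∀ (t : ℝ) (p : PS S₁) (k : ℕ), ‖GG c (F t) p k‖ ≤ Mc * R p ^ k := by
    intro t p k
    unfold GG
    refine (norm_sum_le _ _).trans ?_
    rw [hMc', Finset.sum_mul]
    refine Finset.sum_le_sum fun j _ => ?_
    rw [norm_mul, Complex.norm_real, Real.norm_eq_abs, mul_assoc]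
    exact mul_le_mul_of_nonneg_left (hFb t j p k) (abs_nonneg _)
  exact rel_pair' (S := S) (S₁ := S₁) (M := Mc) (ρ := ρ) hL hL' hF hSS
    (fun j t => by
      obtain ⟨a1, a2⟩ := hdecF (F t j) _ (Nat.cast_nonneg _) (hFb t j) (fun _ => 0) 0 le_rfl
        (fun p => by simp) False (fun h => h.elim)
      exact sum_cv a2 a1)
    (fun j p i hi => by
      have h3 := hbd2 j p i hi
      have h4 : R p < (p : ℕ) := by
        refine (hRsq p).trans_lt ?_
        have h5 : √((p : ℕ) : ℝ) ≤ (p : ℕ) := by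
          rw [Real.sqrt_le_left p.pos.le]
          have := p.one_lt
          nlinarith
        have := p.pos
        linarith
      exact ⟨h3.1.trans_lt h4, h3.2.trans_lt h4⟩) hinv
    (fun t => by
      obtain ⟨a1, a2⟩ := hdecF (GG c (F t)) _ hMc (hGb t)
        (fun p => GG c (F t) p 1) 2 (by norm_num) (hG1 t) True
        (fun _ p => rfl)
      refine ⟨_, a1, a2, fun p => ?_⟩
      simp only [one_ne_zero, if_false, true_and, if_true]
      split_ifs
      · rfl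
      · rfl)

/-- vanishing of all power sums -/
theorem Bm_vanish {J : Type*} [Fintype J] {Ix : J → Finset ℕ} {β : J → ℕ → ℕ → ℂ} {c : J → ℝ}
    {p : ℕ} (h : ∀ k : ℕ, ∑ j, (c j : ℂ) * ps (Ix j) (β j) p (k + 1) = 0) {z : ℂ} (hz : z ≠ 0) :
    Bm Ix β c p z = 0 := by
  classical
  set X : Finset ℂ := insert z (Finset.univ.biUnion fun j => (Ix j).image fun i => β j p i) with hX
  have hmem : ∀ j, ∀ i ∈ Ix j, β j p i ∈ X := fun j i hi =>
    Finset.mem_insert_of_mem (Finset.mem_biUnion.2 ⟨j, Finset.mem_univ _,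
      Finset.mem_image.2 ⟨i, hi, rfl⟩⟩)
  have h1 : ∀ k : ℕ, ∑ x ∈ X, ((Bm Ix β c p x : ℂ) * x) * x ^ k = 0 := by
    intro k
    rw [← h k]
    unfold ps
    rw [Bm_sum p (fun x => x ^ (k + 1)) hmem]
    exact Finset.sum_congr rfl fun x _ => by ring
  set e := X.equivFin with he
  have h2 := Matrix.eq_zero_of_forall_pow_sum_mul_pow_eq_zero
    (f := fun i : Fin X.card => ((e.symm i : X) : ℂ))
    (v := fun i : Fin X.card => (Bm Ix β c p ((e.symm i : X) : ℂ) : ℂ) * ((e.symm i : X) : ℂ))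
    (fun a b hab => e.symm.injective (Subtype.ext hab))
    (fun k => by
      rw [← h1 k, ← Finset.sum_coe_sort X]
      exact Equiv.sum_comp e.symm (fun x : X => ((Bm Ix β c p (x : ℂ) : ℂ) * (x : ℂ)) * (x : ℂ) ^ (k : ℕ)))
  have h3 := congrFun h2 (e ⟨z, Finset.mem_insert_self _ _⟩)
  simp only [Equiv.symm_apply_apply, Pi.zero_apply] at h3
  have h4 := (mul_eq_zero.1 h3).resolve_right hz
  exact_mod_cast h4

end Pool.Agent.U253.SPL
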