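import Pool.Agent.U253.SPL.Uni

/-!
# General archimedean components
-/

set_option autoImplicit false

namespace Pool.Agent.U253.SPL

open Filter Topology Complex Pool.Agent.N210.FV Pool.Agent.N210.FW Pool.Agent.N845.SP
open Pool.Agent.U253.GAP
open Pool.Agent.U253.EEA (Half FEq mo_app)

section

variable {J : Type*} [Fintype J] {r : ℕ} {W : J → List (Fin r → ℤ)} {c : J → ℝ}

/-- contribution of one archimedean parameter -/
noncomputable def con (z m : ℂ) : ℝ :=
  open Classical in (if z = 1 + m then (1 : ℝ) else 0) + if z = 2 - m then 1 else 0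

/-- the symmetric contribution -/
noncomputable def Tc (z u : ℂ) : ℝ :=
  open Classical in ((if u = z - 1 then (1 : ℝ) else 0) + if -u = z - 1 then 1 else 0) +
      ((if u = z - 2 then (1 : ℝ) else 0) + if -u = z - 2 then 1 else 0)

theorem Tc_neg (z u : ℂ) : Tc z (-u) = Tc z u := by
  unfold Tc
  rw [neg_neg]
  ring

theorem con_real (z a : ℂ) (δ : ℤ) :
    con z (a + ((δ % 2 : ℤ) : ℂ)) + con z (-a + ((δ % 2 : ℤ) : ℂ)) = Tc z a := par_step a z δ

theorem con_pair (z a : ℂ) : con z a + con z (a + 1) = Tc z a := by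
  classical
  have h0 := con_real z a 0
  have h1 := con_real z a 1
  simp only [Int.zero_emod, Int.cast_zero, add_zero] at h0
  have e : ((1 % 2 : ℤ) : ℂ) = 1 := by norm_num
  rw [e] at h1
  have e1 : con z (a + 1) = con z (-a) := by
    unfold con
    have a1 : (z = 1 + (a + 1)) = (z = 2 - -a) := by
      rw [eq_iff_iff]
      constructor
      · intro h; rw [h]; ring
      · intro h; rw [h]; ring
    have a2 : (z = 2 - (a + 1)) = (z = 1 + -a) := by
      rw [eq_iff_iff]
      constructor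
      · intro h; rw [h]; ring
      · intro h; rw [h]; ring
    simp only [a1, a2]
    ring
  rw [e1]
  exact h0

theorem ct_sum (ν : Fin r → ℂ) (l : List (Fin r → ℤ)) (z : ℂ) :
    (l.map fun μ => Tc z (dc ν μ)).sum =
    (ct (dc ν) l (z - 1) + ct (fun μ => -dc ν μ) l (z - 1)) +
      (ct (dc ν) l (z - 2) + ct (fun μ => -dc ν μ) l (z - 2)) := by
  classical
  induction l with
  | nil => simp [ct]
  | cons μ l ih =>
    unfold ct Tc at ih ⊢
    simp only [List.map_cons, List.sum_cons] at ih ⊢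
    linarith only [ih]

theorem arch_rel2 {ν : Fin r → ℂ} {m m' : J → List ℂ}
    (hm : ∀ j (z : ℂ), ((m j).map (con z)).sum + ((m' j).map (con z)).sum =
      ((W j).map fun μ => Tc z (dc ν μ)).sum)
    (h : ∀ z : ℂ, ∑ j, c j * (((mo (gi (m j)) (1 - z) : ℝ) + mo (gi (m' j)) (1 - z)) -
      (mo (gi (m j)) z + mo (gi (m' j)) z)) = 0) (z : ℂ) :
    ∑ j, c j * (ct (dc ν) (W j) z + ct (fun μ => -dc ν μ) (W j) z) = 0 := by
  classical
  set Ψ : ℂ → ℝ := fun z => ∑ j, c j * (ct (dc ν) (W j) z + ct (fun μ => -dc ν μ) (W j) z) with hΨ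
  have h1 : ∀ z, Ψ (z - 1) + Ψ (z - 2) = 0 := by
    intro z
    have h2 := h z
    have h3 := h (z - 2)
    rw [← sub_eq_zero.2 (h2.trans h3.symm)]
    simp only [hΨ]
    rw [← Finset.sum_add_distrib, ← Finset.sum_sub_distrib]
    refine Finset.sum_congr rfl fun j _ => ?_
    rw [← mul_add, ← mul_sub, ← ct_sum, ← hm j z]
    have e1 := gi_diff2 (m j) z
    have e2 := gi_diff2 (m' j) z
    have e3 : ((m j).map (con z)).sum = ((m j).map fun m => (open Classical in
      (if z = 1 + m then (1 : ℝ) else 0) + if z = 2 - m then 1 else 0)).sum := rfl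
    have e4 : ((m' j).map (con z)).sum = ((m' j).map fun m => (open Classical in
      (if z = 1 + m then (1 : ℝ) else 0) + if z = 2 - m then 1 else 0)).sum := rfl
    rw [e3, e4, ← e1, ← e2]
    congr 1
    ring
  obtain ⟨C, hC⟩ : ∃ C : ℝ, ∀ j, ∀ μ ∈ W j, |(dc ν μ).re| ≤ C := by
    refine ⟨∑ j, ((W j).map fun μ => |(dc ν μ).re|).sum, fun j μ hμ => ?_⟩
    have h2 : |(dc ν μ).re| ≤ ((W j).map fun μ => |(dc ν μ).re|).sum := by
      refine List.single_le_sum (fun y hy => ?_) _ (List.mem_map.2 ⟨μ, hμ, rfl⟩)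
      rw [List.mem_map] at hy
      obtain ⟨μ', -, rfl⟩ := hy
      exact abs_nonneg _
    refine h2.trans (Finset.single_le_sum (f := fun j => ((W j).map fun μ => |(dc ν μ).re|).sum)
      (fun i _ => List.sum_nonneg fun y hy => ?_) (Finset.mem_univ j))
    rw [List.mem_map] at hy
    obtain ⟨μ', -, rfl⟩ := hy
    exact abs_nonneg _
  have h2 : ∀ z : ℂ, z.re < -C → Ψ z = 0 := by
    intro z hz
    refine Finset.sum_eq_zero fun j _ => ?_
    have a1 : ct (dc ν) (W j) z = 0 := by
      by_contra h0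
      obtain ⟨μ, hμ, h3⟩ := ct_ne h0
      have h4 := hC j μ hμ
      rw [h3] at h4
      have := neg_abs_le z.re
      linarith
    have a2 : ct (fun μ => -dc ν μ) (W j) z = 0 := by
      by_contra h0
      obtain ⟨μ, hμ, h3⟩ := ct_ne h0
      have h4 := hC j μ hμ
      have h5 : (dc ν μ).re = -z.re := by
        rw [← h3, neg_re, neg_neg]
      rw [h5] at h4
      have := le_abs_self (-z.re)
      linarith
    rw [a1, a2, add_zero, mul_zero]
  have h3 : ∀ (n : ℕ) (z : ℂ), z.re - n < -C → Ψ z = 0 := by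
    intro n
    induction n with
    | zero =>
      intro z hz
      exact h2 z (by simpa using hz)
    | succ n ih =>
      intro z hz
      have h4 := h1 (z + 1)
      have e1 : z + 1 - 1 = z := by ring
      have e2 : z + 1 - 2 = z - 1 := by ring
      rw [e1, e2, ih (z - 1) (by
        rw [sub_re, one_re]
        push_cast at hz
        linarith), add_zero] at h4
      exact h4
  obtain ⟨n, hn⟩ := exists_nat_gt (z.re + C)
  exact h3 n z (by linarith)

/-- the archimedean relation -/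
theorem arch_main {S : Finset ℕ} {x : ℕ → Fin r → ℂ} {m m' : J → List ℂ} {N D N' D' : J → ℂ → ℂ}
    {g : ℕ → ℝ} {B : ℝ}
    (hherm : ∀ p : ℕ, p.Prime → p ∉ S → ∀ j,
      ((W j).map fun μ => ((starRingEnd ℂ) (mono (x p) μ))⁻¹).Perm ((W j).map (mono (x p))))
    (hL : ∀ j, Half S (W j).length (fun p i => mono (x p) ((W j).getD i 0)) (N j) (D j))
    (hL' : ∀ j, Half S (W j).length (fun p i => (mono (x p) ((W j).getD i 0))⁻¹) (N' j) (D' j))
    (hF : ∀ j, FEq S (m j) (m' j) (N j) (D j) (N' j) (D' j))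
    (hg0 : ∀ p, 0 ≤ g p) (hlit : Lit S g)
    (hbd : ∀ p : ℕ, p.Prime → p ∉ S →
      ((∀ j, ∀ μ ∈ W j, ‖mono (x p) μ‖ ≤ B) ∧
        ‖∑ j, (c j : ℂ) * ((W j).map (mono (x p))).sum‖ ≤ g p) ∨
      ∀ j, ∀ μ ∈ W j, ‖mono (x p) μ‖ ≤ g p) :
    ∀ z : ℂ, ∑ j, c j * (((mo (gi (m j)) (1 - z) : ℝ) + mo (gi (m' j)) (1 - z)) -
      (mo (gi (m j)) z + mo (gi (m' j)) z)) = 0 := by
  classical
  have hdual : ∀ p : ℕ, p.Prime → p ∉ S → ∀ j, ∀ μ ∈ W j, ∃ μ' ∈ W j,
      ‖(mono (x p) μ)⁻¹‖ = ‖mono (x p) μ'‖ := by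
    intro p hp hpS j μ hμ
    have h1 : ((starRingEnd ℂ) (mono (x p) μ))⁻¹ ∈ (W j).map (mono (x p)) :=
      (hherm p hp hpS j).mem_iff.1 (List.mem_map.2 ⟨μ, hμ, rfl⟩)
    obtain ⟨μ', hμ', h2⟩ := List.mem_map.1 h1
    refine ⟨μ', hμ', ?_⟩
    rw [h2, norm_inv, norm_inv, Complex.norm_conj]
  have hconj : ∀ p : ℕ, p.Prime → p ∉ S → ∀ j, ((W j).map fun μ => (mono (x p) μ)⁻¹).sum =
      (starRingEnd ℂ) ((W j).map (mono (x p))).sum := by
    intro p hp hpS j
    have h1 := ((hherm p hp hpS j).map fun y => y⁻¹).sum_eq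
    rw [List.map_map, List.map_map] at h1
    rw [map_list_sum, List.map_map]
    rw [show ((fun y : ℂ => y⁻¹) ∘ mono (x p)) = fun μ => (mono (x p) μ)⁻¹ from rfl] at h1
    rw [← h1]
    congr 1
    refine List.map_congr_left fun μ _ => ?_
    simp
  have hmem : ∀ {l : List (Fin r → ℤ)} {i : ℕ}, i < l.length → l.getD i 0 ∈ l := by
    intro l i hi
    rw [List.getD_eq_getElem _ _ hi]
    exact List.getElem_mem hi
  exact (gap_gen (n := fun j => (W j).length) (c := c) (g := g) (B := B) hL hL' hF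
    (fun j p _ _ i _ => rfl) hg0 hlit (fun p hp hpS => by
      rcases hbd p hp hpS with ⟨a1, a2⟩ | a1
      · left
        refine ⟨fun j i hi => ⟨a1 j _ (hmem hi), ?_⟩, ?_, ?_⟩
        · obtain ⟨μ', hμ', h3⟩ := hdual p hp hpS j _ (hmem hi)
          rw [h3]
          exact a1 j μ' hμ'
        · simp only [map_ps, pow_one]
          exact a2
        · simp only [map_ps', pow_one]
          have h3 : ∑ j, (c j : ℂ) * ((W j).map fun μ => (mono (x p) μ)⁻¹).sum =
              (starRingEnd ℂ) (∑ j, (c j : ℂ) * ((W j).map (mono (x p))).sum) := by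
            rw [map_sum]
            refine Finset.sum_congr rfl fun j _ => ?_
            rw [map_mul, Complex.conj_ofReal, hconj p hp hpS j]
          rw [h3, Complex.norm_conj]
          exact a2
      · right
        intro j i hi
        refine ⟨a1 j _ (hmem hi), ?_⟩
        obtain ⟨μ', hμ', h3⟩ := hdual p hp hpS j _ (hmem hi)
        rw [h3]
        exact a1 j μ' hμ')).2

/-- generation by differences: torsion -/
theorem tor_gen {x : Fin r → ℂ} (hx : ∀ k, x k ≠ 0) {m : ℕ}
    (h : ∀ i j, ∀ μ ∈ W i, ∀ μ' ∈ W j, mono x μ ^ m = mono x μ' ^ m) {d : Fin r → ℤ}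
    (hd : d ∈ AddSubgroup.closure {d | ∃ i j, ∃ μ ∈ W i, ∃ μ' ∈ W j, d = μ - μ'}) :
    mono x d ^ m = 1 := by
  have hsub : ∀ a b : Fin r → ℤ, mono x (a - b) = mono x a * (mono x b)⁻¹ := by
    intro a b
    unfold mono
    rw [← Finset.prod_inv_distrib, ← Finset.prod_mul_distrib]
    refine Finset.prod_congr rfl fun k _ => ?_
    rw [Pi.sub_apply, zpow_sub₀ (hx k), div_eq_mul_inv]
  have hadd : ∀ a b : Fin r → ℤ, mono x (a + b) = mono x a * mono x b := by
    intro a b
    unfold mono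
    rw [← Finset.prod_mul_distrib]
    refine Finset.prod_congr rfl fun k _ => ?_
    rw [Pi.add_apply, zpow_add₀ (hx k)]
  induction hd using AddSubgroup.closure_induction with
  | mem d hd =>
    obtain ⟨i, j, μ, hμ, μ', hμ', rfl⟩ := hd
    rw [hsub, mul_pow, h i j μ hμ μ' hμ', inv_pow, mul_inv_cancel₀]
    exact pow_ne_zero _ (mono_ne hx _)
  | zero => simp [mono]
  | add a b _ _ ha hb => rw [hadd, mul_pow, ha, hb, one_mul]
  | neg a _ ha =>
    have : mono x (-a) = (mono x a)⁻¹ := by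
      have := hsub 0 a
      rw [zero_sub] at this
      rw [this]
      simp [mono]
    rw [this, inv_pow, ha, inv_one]

/-- generation by differences: exponents -/
theorem exp_gen {ν : Fin r → ℂ} (h : ∀ i j, ∀ μ ∈ W i, ∀ μ' ∈ W j, dc ν μ = dc ν μ')
    {d : Fin r → ℤ}
    (hd : d ∈ AddSubgroup.closure {d | ∃ i j, ∃ μ ∈ W i, ∃ μ' ∈ W j, d = μ - μ'}) :
    dc ν d = 0 := by
  have hadd : ∀ a b : Fin r → ℤ, dc ν (a + b) = dc ν a + dc ν b := by
    intro a b
    unfold dc
    rw [← Finset.sum_add_distrib]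
    refine Finset.sum_congr rfl fun k _ => ?_
    rw [Pi.add_apply]
    push_cast
    ring
  have hneg : ∀ a : Fin r → ℤ, dc ν (-a) = -dc ν a := by
    intro a
    unfold dc
    rw [← Finset.sum_neg_distrib]
    refine Finset.sum_congr rfl fun k _ => ?_
    rw [Pi.neg_apply]
    push_cast
    ring
  induction hd using AddSubgroup.closure_induction with
  | mem d hd =>
    obtain ⟨i, j, μ, hμ, μ', hμ', rfl⟩ := hd
    rw [sub_eq_add_neg, hadd, hneg, h i j μ hμ μ' hμ', add_neg_cancel]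
  | zero => simp [dc]
  | add a b _ _ ha hb => rw [hadd, ha, hb, add_zero]
  | neg a _ ha => rw [hneg, ha, neg_zero]

theorem mono_single (x : Fin r → ℂ) (k : Fin r) (N : ℕ) : mono x (N • Pi.single k 1) = x k ^ N := by
  unfold mono
  rw [Finset.prod_eq_single k]
  · simp
  · intro j _ hj
    simp [Pi.single_eq_of_ne hj]
  · intro h
    exact absurd (Finset.mem_univ _) h

theorem dc_single (ν : Fin r → ℂ) (k : Fin r) (N : ℕ) : dc ν (N • Pi.single k 1) = N * ν k := by
  unfold dc
  rw [Finset.sum_eq_single k]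
  · simp
  · intro j _ hj
    simp [Pi.single_eq_of_ne hj]
  · intro h
    exact absurd (Finset.mem_univ _) h

end

end Pool.Agent.U253.SPL
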