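import Pool.Agent.U253.SPL.Gen

/-!
# Weights of a torus
-/

set_option autoImplicit false

namespace Pool.Agent.U253.SPL

open Filter Topology Complex Pool.Agent.N210.FV Pool.Agent.N210.FW Pool.Agent.N845.SP
open Pool.Agent.U253.EEA (mo_app)

/-- pairing of integral vectors -/
def dt {r : ℕ} (a μ : Fin r → ℤ) : ℤ := ∑ k, a k * μ k

/-- the value of a character -/
noncomputable def mono {r : ℕ} (x : Fin r → ℂ) (μ : Fin r → ℤ) : ℂ := ∏ k, x k ^ μ k

/-- the pairing with the exponents at infinity -/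
noncomputable def dc {r : ℕ} (ν : Fin r → ℂ) (μ : Fin r → ℤ) : ℂ := ∑ k, (μ k : ℂ) * ν k

theorem dt_neg {r : ℕ} (a μ : Fin r → ℤ) : dt (-a) μ = -dt a μ := by
  unfold dt
  rw [← Finset.sum_neg_distrib]
  exact Finset.sum_congr rfl fun k _ => by simp

theorem dt_sub {r : ℕ} (a μ μ' : Fin r → ℤ) : dt a (μ - μ') = dt a μ - dt a μ' := by
  unfold dt
  rw [← Finset.sum_sub_distrib]
  exact Finset.sum_congr rfl fun k _ => by simp [mul_sub]

/-- separation by an integral functional -/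
theorem fun_sep {r : ℕ} {A : Type*} [AddCommGroup A] (φ : (Fin r → ℤ) →+ A) {d : Fin r → ℤ}
    (hd : ∀ n : ℕ, 0 < n → φ (n • d) ≠ 0) :
    ∃ a : Fin r → ℤ, (∀ m, φ m = 0 → dt a m = 0) ∧ dt a d ≠ 0 := by
  classical
  let V : Submodule ℚ (Fin r → ℚ) :=
    { carrier := {v | ∃ n : ℕ, 0 < n ∧ ∃ m : Fin r → ℤ, φ m = 0 ∧ ∀ k, (n : ℚ) * v k = m k}
      zero_mem' := ⟨1, one_pos, 0, map_zero φ, fun k => by simp⟩
      add_mem' := by
        rintro v w ⟨n, hn, m, hm, h⟩ ⟨n', hn', m', hm', h'⟩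
        refine ⟨n * n', Nat.mul_pos hn hn', n' • m + n • m', ?_, fun k => ?_⟩
        · rw [map_add, map_nsmul, map_nsmul, hm, hm', nsmul_zero, nsmul_zero, add_zero]
        · have h1 := h k
          have h2 := h' k
          have e1 : (n' • m + n • m') k = (n' : ℤ) * m k + (n : ℤ) * m' k := by
            simp
          rw [e1, Pi.add_apply]
          push_cast
          linear_combination (n' : ℚ) * h1 + (n : ℚ) * h2
      smul_mem' := by
        rintro q v ⟨n, hn, m, hm, h⟩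
        refine ⟨q.den * n, Nat.mul_pos q.den_pos hn, q.num • m, ?_, fun k => ?_⟩
        · rw [map_zsmul, hm, smul_zero]
        · have h1 := h k
          have h2 : (q : ℚ) * q.den = q.num := Rat.mul_den_eq_num q
          simp only [Pi.smul_apply, smul_eq_mul, Int.cast_mul, Nat.cast_mul]
          linear_combination (n : ℚ) * v k * h2 + (q.num : ℚ) * h1 }
  have hdV : (fun k => (d k : ℚ)) ∉ V := by
    rintro ⟨n, hn, m, hm, h⟩
    refine hd n hn ?_
    have : n • d = m := by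
      funext k
      have h1 := h k
      have h2 : (((n : ℤ) * d k : ℤ) : ℚ) = ((m k : ℤ) : ℚ) := by
        push_cast
        exact h1
      have h3 : (n : ℤ) * d k = m k := by exact_mod_cast h2
      simpa [nsmul_eq_mul] using h3
    rw [this, hm]
  obtain ⟨f, hf, hV⟩ := Submodule.exists_le_ker_of_notMem hdV
  set q : Fin r → ℚ := fun k => f (Pi.single k 1) with hq
  have hfs : ∀ v : Fin r → ℚ, f v = ∑ k, v k * q k := by
    intro v
    rw [LinearMap.pi_apply_eq_sum_univ f v]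
    refine Finset.sum_congr rfl fun k _ => ?_
    rw [smul_eq_mul, hq]
    congr 2
    funext j
    rw [Pi.single_apply]
    congr 1
    rw [eq_iff_iff]
    exact eq_comm
  set N : ℕ := ∏ k, (q k).den with hN
  have hN0 : 0 < N := Finset.prod_pos fun k _ => (q k).den_pos
  have hdvd : ∀ k, ∃ e : ℕ, N = (q k).den * e := fun k =>
    Finset.dvd_prod_of_mem (fun k => (q k).den) (Finset.mem_univ k)
  choose e he using hdvd
  have ha : ∀ k, (((q k).num * e k : ℤ) : ℚ) = N * q k := by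
    intro k
    have h1 : (q k) * (q k).den = (q k).num := Rat.mul_den_eq_num (q k)
    rw [he k]
    push_cast
    rw [← h1]
    ring
  have key : ∀ m : Fin r → ℤ, ((dt (fun k => (q k).num * e k) m : ℤ) : ℚ) =
      N * f (fun k => (m k : ℚ)) := by
    intro m
    unfold dt
    rw [hfs, Finset.mul_sum]
    push_cast
    refine Finset.sum_congr rfl fun k _ => ?_
    have := ha k
    push_cast at this
    rw [this]
    ring
  refine ⟨fun k => (q k).num * e k, fun m hm => ?_, fun h => ?_⟩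
  · have h1 : f (fun k => (m k : ℚ)) = 0 := by
      have h2 : (fun k => (m k : ℚ)) ∈ V := ⟨1, one_pos, m, hm, fun k => by simp⟩
      exact LinearMap.mem_ker.1 (hV h2)
    have h2 := key m
    rw [h1, mul_zero] at h2
    exact_mod_cast h2
  · have h2 := key d
    rw [h] at h2
    have h3 : (N : ℚ) ≠ 0 := by exact_mod_cast hN0.ne'
    have h4 : (N : ℚ) * f (fun k => (d k : ℚ)) = 0 := by
      rw [← h2]
      simp
    rcases mul_eq_zero.1 h4 with h5 | h5
    · exact h3 h5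
    · exact hf h5

section

variable {J : Type*} [Fintype J] {r : ℕ} {W : J → List (Fin r → ℤ)} {c : J → ℝ}

/-- positivity in all directions -/
def Dom (W : J → List (Fin r → ℤ)) (c : J → ℝ) : Prop :=
  ∀ a : Fin r → ℤ, (∃ i, ∃ j, ∃ μ ∈ W i, ∃ μ' ∈ W j, dt a μ ≠ dt a μ') →
    ∀ j, ∀ μ ∈ W j, (∀ i, ∀ μ' ∈ W i, dt a μ' ≤ dt a μ) → 0 < c j

/-- multiplicity -/
noncomputable def ct {A : Type*} (φ : (Fin r → ℤ) → A) (l : List (Fin r → ℤ)) (z : A) : ℝ :=
  open Classical in (l.map fun μ => if φ μ = z then (1 : ℝ) else 0).sum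

theorem ct_nonneg {A : Type*} (φ : (Fin r → ℤ) → A) (l : List (Fin r → ℤ)) (z : A) :
    0 ≤ ct φ l z := by
  classical
  unfold ct
  refine List.sum_nonneg fun y hy => ?_
  rw [List.mem_map] at hy
  obtain ⟨μ, -, rfl⟩ := hy
  split_ifs <;> norm_num

theorem ct_ne {A : Type*} {φ : (Fin r → ℤ) → A} {l : List (Fin r → ℤ)} {z : A} (h : ct φ l z ≠ 0) :
    ∃ μ ∈ l, φ μ = z := by
  classical
  by_contra hcon
  push Not at hcon
  apply h
  unfold ct
  rw [List.sum_eq_zero]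
  intro y hy
  rw [List.mem_map] at hy
  obtain ⟨μ, hμ, rfl⟩ := hy
  rw [if_neg (hcon μ hμ)]

theorem ct_pos {A : Type*} {φ : (Fin r → ℤ) → A} {l : List (Fin r → ℤ)} {z : A} {μ : Fin r → ℤ}
    (hμ : μ ∈ l) (h : φ μ = z) : 0 < ct φ l z := by
  classical
  unfold ct
  have h1 : (1 : ℝ) ∈ l.map fun μ => if φ μ = z then (1 : ℝ) else 0 :=
    List.mem_map.2 ⟨μ, hμ, if_pos h⟩
  have h2 := List.single_le_sum (l := l.map fun μ => if φ μ = z then (1 : ℝ) else 0) (fun y hy => by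
    rw [List.mem_map] at hy
    obtain ⟨μ, -, rfl⟩ := hy
    split_ifs <;> norm_num) 1 h1
  linarith

theorem exists_top (W : J → List (Fin r → ℤ)) (a : Fin r → ℤ) {i : J} {μ : Fin r → ℤ}
    (hμ : μ ∈ W i) : ∃ j, ∃ μ' ∈ W j, ∀ i, ∀ μ ∈ W i, dt a μ ≤ dt a μ' := by
  classical
  obtain ⟨m, hm, hmax⟩ := Finset.exists_max_image
    (Finset.univ.biUnion fun j => (W j).toFinset) (fun μ => dt a μ)
    ⟨μ, Finset.mem_biUnion.2 ⟨i, Finset.mem_univ _, List.mem_toFinset.2 hμ⟩⟩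
  rw [Finset.mem_biUnion] at hm
  obtain ⟨j, -, hj⟩ := hm
  exact ⟨j, m, List.mem_toFinset.1 hj, fun i' μ' hμ' => hmax μ' (Finset.mem_biUnion.2
    ⟨i', Finset.mem_univ _, List.mem_toFinset.2 hμ'⟩)⟩

/-- **finite order** -/
theorem fin_order (hdom : Dom W c) {x : Fin r → ℂ} (hx : ∀ k, x k ≠ 0)
    (hz : ∀ z : ℂ, z ≠ 0 → ∑ j, c j * ct (mono x) (W j) z = 0) {i j : J} {μ μ' : Fin r → ℤ}
    (hμ : μ ∈ W i) (hμ' : μ' ∈ W j) : ∃ n : ℕ, 0 < n ∧ mono x μ ^ n = mono x μ' ^ n := by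
  classical
  set u : Fin r → ℂˣ := fun k => Units.mk0 (x k) (hx k) with hu
  let φ : (Fin r → ℤ) →+ Additive ℂˣ :=
    { toFun := fun μ => Additive.ofMul (∏ k, u k ^ μ k)
      map_zero' := by simp
      map_add' := fun μ μ' => by
        simp only [Pi.add_apply, zpow_add, Finset.prod_mul_distrib]
        rfl }
  have hφ : ∀ μ, ((Additive.toMul (φ μ) : ℂˣ) : ℂ) = mono x μ := by
    intro μ
    show ((∏ k, u k ^ μ k : ℂˣ) : ℂ) = _
    unfold mono
    rw [Units.coe_prod]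
    refine Finset.prod_congr rfl fun k _ => ?_
    rw [Units.val_zpow_eq_zpow_val]
    rfl
  have hm0 : ∀ μ, mono x μ ≠ 0 := fun μ => by
    rw [← hφ μ]
    exact Units.ne_zero _
  by_contra hcon
  push Not at hcon
  have hd : ∀ n : ℕ, 0 < n → φ (n • (μ - μ')) ≠ 0 := by
    intro n hn h0
    apply hcon n hn
    rw [map_nsmul, map_sub, nsmul_sub, sub_eq_zero] at h0
    have h1 : Additive.toMul (n • φ μ) = Additive.toMul (n • φ μ') := by rw [h0]
    rw [toMul_nsmul, toMul_nsmul] at h1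
    have h2 : ((Additive.toMul (φ μ) ^ n : ℂˣ) : ℂ) = ((Additive.toMul (φ μ') ^ n : ℂˣ) : ℂ) := by
      rw [h1]
    rw [Units.val_pow_eq_pow_val, Units.val_pow_eq_pow_val, hφ, hφ] at h2
    exact h2
  obtain ⟨a, ha, had⟩ := fun_sep φ hd
  have hne : dt a μ ≠ dt a μ' := by
    rw [dt_sub] at had
    exact sub_ne_zero.1 had
  obtain ⟨j₀, m, hm, hmax⟩ := exists_top W a hμ
  have heq : ∀ m', mono x m' = mono x m → dt a m' = dt a m := by
    intro m' h1
    have h2 : φ (m' - m) = 0 := by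
      rw [map_sub, sub_eq_zero]
      apply Additive.toMul.injective
      apply Units.ext
      rw [hφ, hφ, h1]
    have h3 := ha _ h2
    rw [dt_sub] at h3
    linarith
  have h1 := hz (mono x m) (hm0 m)
  have h2 : 0 < ∑ j, c j * ct (mono x) (W j) (mono x m) := by
    refine Finset.sum_pos' (fun j _ => ?_) ⟨j₀, Finset.mem_univ _, ?_⟩
    · by_cases h0 : ct (mono x) (W j) (mono x m) = 0
      · rw [h0, mul_zero]
      · obtain ⟨m', hm', h3⟩ := ct_ne h0
        have h4 : 0 < c j := hdom a ⟨i, _, μ, hμ, μ', hμ', hne⟩ j m' hm' (fun i' μ₁ hμ₁ => by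
          rw [heq m' h3]
          exact hmax i' μ₁ hμ₁)
        exact mul_nonneg h4.le (ct_nonneg _ _ _)
    · exact mul_pos (hdom a ⟨i, _, μ, hμ, μ', hμ', hne⟩ j₀ m hm hmax) (ct_pos hm rfl)
  linarith

/-- **the exponents at infinity** -/
theorem inf_zero (hdom : Dom W c) {ν : Fin r → ℂ}
    (hz : ∀ z : ℂ, ∑ j, c j * (ct (dc ν) (W j) z + ct (fun μ => -dc ν μ) (W j) z) = 0) {i j : J}
    {μ μ' : Fin r → ℤ} (hμ : μ ∈ W i) (hμ' : μ' ∈ W j) : dc ν μ = dc ν μ' := by
  classical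
  let φ : (Fin r → ℤ) →+ ℂ :=
    { toFun := dc ν
      map_zero' := by simp [dc]
      map_add' := fun μ μ' => by
        simp only [dc, Pi.add_apply, ← Finset.sum_add_distrib]
        refine Finset.sum_congr rfl fun k _ => ?_
        push_cast
        ring }
  have hφ : ∀ μ, φ μ = dc ν μ := fun μ => rfl
  by_contra hcon
  have hd : ∀ n : ℕ, 0 < n → φ (n • (μ - μ')) ≠ 0 := by
    intro n hn h0
    rw [map_nsmul, map_sub, nsmul_eq_mul] at h0
    have hn' : (n : ℂ) ≠ 0 := by exact_mod_cast hn.ne'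
    exact hcon (sub_eq_zero.1 ((mul_eq_zero.1 h0).resolve_left hn'))
  obtain ⟨a, ha, had⟩ := fun_sep φ hd
  have heq : ∀ m m' : Fin r → ℤ, dc ν m = dc ν m' → dt a m = dt a m' := by
    intro m m' h1
    have h2 : φ (m - m') = 0 := by
      rw [map_sub, hφ, hφ, h1, sub_self]
    have h3 := ha _ h2
    rw [dt_sub] at h3
    linarith
  have heq' : ∀ m m' : Fin r → ℤ, -dc ν m = dc ν m' → -dt a m = dt a m' := by
    intro m m' h1
    have h2 : φ (-m - m') = 0 := by
      rw [map_sub, map_neg, hφ, hφ, h1, sub_self]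
    have h3 := ha _ h2
    have h4 : dt a (-m - m') = -dt a m - dt a m' := by
      rw [dt_sub]
      congr 1
      unfold dt
      rw [← Finset.sum_neg_distrib]
      exact Finset.sum_congr rfl fun k _ => by simp
    linarith
  have hne : dt a μ ≠ dt a μ' := by
    rw [dt_sub] at had
    exact sub_ne_zero.1 had
  have hne' : dt (-a) μ ≠ dt (-a) μ' := by
    rw [dt_neg, dt_neg]
    exact fun h => hne (neg_injective h)
  obtain ⟨j₀, m, hm, hmax⟩ := exists_top W a hμ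
  obtain ⟨j₁, m₁, hm₁, hmax₁⟩ := exists_top W (-a) hμ
  -- positivity of all terms at `z`
  have hterm : ∀ z : ℂ, (∀ j, ∀ μ ∈ W j, dc ν μ = z → 0 < c j) →
      (∀ j, ∀ μ ∈ W j, -dc ν μ = z → 0 < c j) →
      ∀ j, 0 ≤ c j * (ct (dc ν) (W j) z + ct (fun μ => -dc ν μ) (W j) z) := by
    intro z h1 h2 j
    by_cases h0 : ct (dc ν) (W j) z = 0
    · by_cases h0' : ct (fun μ => -dc ν μ) (W j) z = 0
      · rw [h0, h0', add_zero, mul_zero]
      · obtain ⟨m', hm', h3⟩ := ct_ne h0'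
        exact mul_nonneg (h2 j m' hm' h3).le (add_nonneg (ct_nonneg _ _ _) (ct_nonneg _ _ _))
    · obtain ⟨m', hm', h3⟩ := ct_ne h0
      exact mul_nonneg (h1 j m' hm' h3).le (add_nonneg (ct_nonneg _ _ _) (ct_nonneg _ _ _))
  rcases le_total (dt (-a) m₁) (dt a m) with h | h
  · have h1 := hz (dc ν m)
    have h2 : 0 < ∑ j, c j * (ct (dc ν) (W j) (dc ν m) + ct (fun μ => -dc ν μ) (W j) (dc ν m)) := by
      refine Finset.sum_pos' (fun j _ => hterm _ ?_ ?_ j) ⟨j₀, Finset.mem_univ _, ?_⟩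
      · intro j m' hm' h3
        refine hdom a ⟨i, _, μ, hμ, μ', hμ', hne⟩ j m' hm' fun i' μ₁ hμ₁ => ?_
        rw [heq m' m h3]
        exact hmax i' μ₁ hμ₁
      · intro j m' hm' h3
        refine hdom (-a) ⟨i, _, μ, hμ, μ', hμ', hne'⟩ j m' hm' fun i' μ₁ hμ₁ => ?_
        rw [dt_neg a m', heq' m' m h3]
        exact (hmax₁ i' μ₁ hμ₁).trans h
      · exact mul_pos (hdom a ⟨i, _, μ, hμ, μ', hμ', hne⟩ j₀ m hm hmax)
          (add_pos_of_pos_of_nonneg (ct_pos hm rfl) (ct_nonneg _ _ _))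
    linarith
  · have h1 := hz (-dc ν m₁)
    have h2 : 0 < ∑ j, c j * (ct (dc ν) (W j) (-dc ν m₁) +
        ct (fun μ => -dc ν μ) (W j) (-dc ν m₁)) := by
      refine Finset.sum_pos' (fun j _ => hterm _ ?_ ?_ j) ⟨j₁, Finset.mem_univ _, ?_⟩
      · intro j m' hm' h3
        refine hdom a ⟨i, _, μ, hμ, μ', hμ', hne⟩ j m' hm' fun i' μ₁ hμ₁ => ?_
        rw [← heq' m₁ m' h3.symm, ← dt_neg]
        exact (hmax i' μ₁ hμ₁).trans h
      · intro j m' hm' h3
        refine hdom (-a) ⟨i, _, μ, hμ, μ', hμ', hne'⟩ j m' hm' fun i' μ₁ hμ₁ => ?_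
        rw [dt_neg a m', heq m' m₁ (neg_injective h3), ← dt_neg]
        exact hmax₁ i' μ₁ hμ₁
      · exact mul_pos (hdom (-a) ⟨i, _, μ, hμ, μ', hμ', hne'⟩ j₁ m₁ hm₁ hmax₁)
          (add_pos_of_nonneg_of_pos (ct_nonneg _ _ _) (ct_pos hm₁ rfl))
    linarith

end

end Pool.Agent.U253.SPL
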