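import Pool.Agent.U253.SPL.Fin

/-!
# A uniform bound for the orders
-/

set_option autoImplicit false

namespace Pool.Agent.U253.SPL

open Filter Topology Complex Pool.Agent.N210.FV Pool.Agent.N210.FW Pool.Agent.N845.SP
open Pool.Agent.U253.GAP
open Pool.Agent.U253.EEA (Half FEq mo_app)

/-- the homomorphism `μ ↦ x^μ` -/
noncomputable def torHom {r : ℕ} (x : Fin r → ℂ) (hx : ∀ k, x k ≠ 0) :
    (Fin r → ℤ) →+ Additive ℂˣ :=
  { toFun := fun μ => Additive.ofMul (∏ k, (Units.mk0 (x k) (hx k)) ^ μ k)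
    map_zero' := by simp
    map_add' := fun μ μ' => by
      simp only [Pi.add_apply, zpow_add, Finset.prod_mul_distrib]
      rfl }

theorem torHom_coe {r : ℕ} (x : Fin r → ℂ) (hx : ∀ k, x k ≠ 0) (μ : Fin r → ℤ) :
    ((Additive.toMul (torHom x hx μ) : ℂˣ) : ℂ) = mono x μ := by
  show ((∏ k, (Units.mk0 (x k) (hx k)) ^ μ k : ℂˣ) : ℂ) = _
  unfold mono
  rw [Units.coe_prod]
  refine Finset.prod_congr rfl fun k _ => ?_
  rw [Units.val_zpow_eq_zpow_val]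
  rfl

theorem torHom_zero {r : ℕ} {x : Fin r → ℂ} (hx : ∀ k, x k ≠ 0) (μ : Fin r → ℤ) :
    torHom x hx μ = 0 ↔ mono x μ = 1 := by
  rw [← torHom_coe x hx μ]
  constructor
  · intro h
    rw [h]
    rfl
  · intro h
    apply Additive.toMul.injective
    apply Units.ext
    rw [h]
    rfl

section

variable {J : Type*} [Fintype J] {r : ℕ} {W : J → List (Fin r → ℤ)} {c : J → ℝ}

/-- positivity in all directions which vanish on `K` -/
def DomK (K : Set (Fin r → ℤ)) (W : J → List (Fin r → ℤ)) (c : J → ℝ) : Prop :=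
  ∀ a : Fin r → ℤ, (∀ κ ∈ K, dt a κ = 0) → (∃ i, ∃ j, ∃ μ ∈ W i, ∃ μ' ∈ W j, dt a μ ≠ dt a μ') →
    ∀ j, ∀ μ ∈ W j, (∀ i, ∀ μ' ∈ W i, dt a μ' ≤ dt a μ) → 0 < c j

/-- **uniform order** -/
theorem uniform {K : Set (Fin r → ℤ)} (hdom : DomK K W c) : ∃ m : ℕ, 0 < m ∧
    ∀ x : Fin r → ℂ, (∀ k, x k ≠ 0) → (∀ κ ∈ K, mono x κ = 1) →
      (∀ z : ℂ, z ≠ 0 → ∑ j, c j * ct (mono x) (W j) z = 0) →
      ∀ i j, ∀ μ ∈ W i, ∀ μ' ∈ W j, mono x μ ^ m = mono x μ' ^ m := by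
  classical
  set U : Finset (Fin r → ℤ) := Finset.univ.biUnion fun j => (W j).toFinset with hU
  have hUm : ∀ μ, μ ∈ U ↔ ∃ j, μ ∈ W j := by
    intro μ
    rw [hU, Finset.mem_biUnion]
    constructor
    · rintro ⟨j, -, hj⟩
      exact ⟨j, List.mem_toFinset.1 hj⟩
    · rintro ⟨j, hj⟩
      exact ⟨j, Finset.mem_univ _, List.mem_toFinset.2 hj⟩
  set pat : (Fin r → ℂ) → Finset ((Fin r → ℤ) × (Fin r → ℤ)) := fun x =>
    (U ×ˢ U).filter fun q => mono x q.1 = mono x q.2 with hpat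
  set G : Finset ((Fin r → ℤ) × (Fin r → ℤ)) → AddSubgroup (Fin r → ℤ) := fun F =>
    AddSubgroup.closure (K ∪ {d | ∃ q ∈ F, d = q.1 - q.2}) with hG
  have key : ∀ (F : Finset ((Fin r → ℤ) × (Fin r → ℤ))) (q : (Fin r → ℤ) × (Fin r → ℤ)),
      ∃ n : ℕ, 0 < n ∧ ((∃ x : Fin r → ℂ, (∀ k, x k ≠ 0) ∧ (∀ κ ∈ K, mono x κ = 1) ∧
        (∀ z : ℂ, z ≠ 0 → ∑ j, c j * ct (mono x) (W j) z = 0) ∧ pat x = F) → q ∈ U ×ˢ U →
        n • (q.1 - q.2) ∈ G F) := by
    intro F q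
    by_cases hF : (∃ x : Fin r → ℂ, (∀ k, x k ≠ 0) ∧ (∀ κ ∈ K, mono x κ = 1) ∧
        (∀ z : ℂ, z ≠ 0 → ∑ j, c j * ct (mono x) (W j) z = 0) ∧ pat x = F) ∧ q ∈ U ×ˢ U
    · obtain ⟨⟨x, hx, hK, hz, hxF⟩, hq⟩ := hF
      by_contra hcon
      push Not at hcon
      have hd : ∀ n : ℕ, 0 < n → QuotientAddGroup.mk' (G F) (n • (q.1 - q.2)) ≠ 0 := by
        intro n hn h0
        have h1 := (hcon n hn).2.2
        exact h1 ((QuotientAddGroup.eq_zero_iff _).1 h0)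
      obtain ⟨a, ha, had⟩ := fun_sep (QuotientAddGroup.mk' (G F)) hd
      have ha' : ∀ m ∈ G F, dt a m = 0 := fun m hm => ha m ((QuotientAddGroup.eq_zero_iff _).2 hm)
      have haK : ∀ κ ∈ K, dt a κ = 0 := fun κ hκ =>
        ha' κ (AddSubgroup.subset_closure (Or.inl hκ))
      have hne : dt a q.1 ≠ dt a q.2 := by
        rw [dt_sub] at had
        exact sub_ne_zero.1 had
      rw [Finset.mem_product] at hq
      obtain ⟨i, hi⟩ := (hUm _).1 hq.1
      obtain ⟨i', hi'⟩ := (hUm _).1 hq.2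
      obtain ⟨j₀, m, hm, hmax⟩ := exists_top W a hi
      have heq : ∀ j, ∀ m' ∈ W j, mono x m' = mono x m → dt a m' = dt a m := by
        intro j m' hm' h1
        have h2 : m' - m ∈ G F := by
          refine AddSubgroup.subset_closure (Or.inr ⟨(m', m), ?_, rfl⟩)
          rw [← hxF, hpat, Finset.mem_filter, Finset.mem_product]
          exact ⟨⟨(hUm _).2 ⟨j, hm'⟩, (hUm _).2 ⟨j₀, hm⟩⟩, h1⟩
        have h3 := ha' _ h2
        rw [dt_sub] at h3
        linarith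
      have h1 := hz (mono x m) (mono_ne hx m)
      have h2 : 0 < ∑ j, c j * ct (mono x) (W j) (mono x m) := by
        refine Finset.sum_pos' (fun j _ => ?_) ⟨j₀, Finset.mem_univ _, ?_⟩
        · by_cases h0 : ct (mono x) (W j) (mono x m) = 0
          · rw [h0, mul_zero]
          · obtain ⟨m', hm', h3⟩ := ct_ne h0
            have h4 : 0 < c j := hdom a haK ⟨i, i', _, hi, _, hi', hne⟩ j m' hm'
              (fun i₁ μ₁ hμ₁ => by
                rw [heq j m' hm' h3]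
                exact hmax i₁ μ₁ hμ₁)
            exact mul_nonneg h4.le (ct_nonneg _ _ _)
        · exact mul_pos (hdom a haK ⟨i, i', _, hi, _, hi', hne⟩ j₀ m hm hmax) (ct_pos hm rfl)
      linarith
    · exact ⟨1, one_pos, fun h1 h2 => absurd ⟨h1, h2⟩ hF⟩
  choose n hn hnG using key
  set m : ℕ := ∏ F ∈ (U ×ˢ U).powerset, ∏ q ∈ U ×ˢ U, n F q with hm
  refine ⟨m, Finset.prod_pos fun F _ => Finset.prod_pos fun q _ => hn F q, ?_⟩
  intro x hx hK hz i j μ hμ μ' hμ'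
  have hq : (μ, μ') ∈ U ×ˢ U := Finset.mem_product.2 ⟨(hUm _).2 ⟨i, hμ⟩, (hUm _).2 ⟨j, hμ'⟩⟩
  have hF : pat x ∈ (U ×ˢ U).powerset := Finset.mem_powerset.2 (Finset.filter_subset _ _)
  have h1 := hnG (pat x) (μ, μ') ⟨x, hx, hK, hz, rfl⟩ hq
  have h2 : G (pat x) ≤ (torHom x hx).ker := by
    rw [hG]
    refine (AddSubgroup.closure_le _).2 ?_
    rintro d (hd | ⟨q, hq, rfl⟩)
    · exact (torHom_zero hx d).2 (hK d hd)
    · have h3 := (Finset.mem_filter.1 hq).2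
      show torHom x hx (q.1 - q.2) = 0
      rw [map_sub, sub_eq_zero]
      apply Additive.toMul.injective
      apply Units.ext
      rw [torHom_coe, torHom_coe, h3]
  have h3 : torHom x hx (n (pat x) (μ, μ') • (μ - μ')) = 0 := h2 h1
  rw [map_nsmul, map_sub, nsmul_sub, sub_eq_zero] at h3
  have h4 : mono x μ ^ n (pat x) (μ, μ') = mono x μ' ^ n (pat x) (μ, μ') := by
    have h5 : Additive.toMul (n (pat x) (μ, μ') • torHom x hx μ) =
        Additive.toMul (n (pat x) (μ, μ') • torHom x hx μ') := by rw [h3]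
    rw [toMul_nsmul, toMul_nsmul] at h5
    have h6 := congrArg (fun y : ℂˣ => (y : ℂ)) h5
    simp only [Units.val_pow_eq_pow_val, torHom_coe] at h6
    exact h6
  obtain ⟨e, he⟩ : n (pat x) (μ, μ') ∣ m :=
    (Finset.dvd_prod_of_mem (fun q => n (pat x) q) hq).trans
      (Finset.dvd_prod_of_mem (fun F => ∏ q ∈ U ×ˢ U, n F q) hF)
  rw [he, pow_mul, pow_mul, h4]

/-- the multiplicities vanish -/
theorem zero_main {S : Finset ℕ} {x : ℕ → Fin r → ℂ} {m m' : J → List ℂ} {N D N' D' : J → ℂ → ℂ}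
    {g : ℕ → ℝ} {B : ℝ}
    (hherm : ∀ p : ℕ, p.Prime → p ∉ S → ∀ j,
      ((W j).map fun μ => ((starRingEnd ℂ) (mono (x p) μ))⁻¹).Perm ((W j).map (mono (x p))))
    (hL : ∀ j, Half S (W j).length (fun p i => mono (x p) ((W j).getD i 0)) (N j) (D j))
    (hL' : ∀ j, Half S (W j).length (fun p i => (mono (x p) ((W j).getD i 0))⁻¹) (N' j) (D' j))
    (hF : ∀ j, FEq S (m j) (m' j) (N j) (D j) (N' j) (D' j))
    (hg0 : ∀ p, 0 ≤ g p) (hlit : Lit S g)
    (hbd : ∀ p : ℕ, p.Prime → p ∉ S →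
      ((∀ j, ∀ μ ∈ W j, ‖mono (x p) μ‖ ≤ B) ∧
        ‖∑ j, (c j : ℂ) * ((W j).map (mono (x p))).sum‖ ≤ g p) ∨
      ∀ j, ∀ μ ∈ W j, ‖mono (x p) μ‖ ≤ g p) :
    ∀ p : ℕ, p.Prime → p ∉ S → ∀ z : ℂ, z ≠ 0 → ∑ j, c j * ct (mono (x p)) (W j) z = 0 := by
  classical
  have hdual : ∀ p : ℕ, p.Prime → p ∉ S → ∀ j, ∀ μ ∈ W j, ∃ μ' ∈ W j,
      ‖(mono (x p) μ)⁻¹‖ = ‖mono (x p) μ'‖ := by
    intro p hp hpS j μ hμ
    have h1 : ((starRingEnd ℂ) (mono (x p) μ))⁻¹ ∈ (W j).map (mono (x p)) :=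
      (hherm p hp hpS j).mem_iff.1 (List.mem_map.2 ⟨μ, hμ, rfl⟩)
    obtain ⟨μ', hμ', h2⟩ := List.mem_map.1 h1
    refine ⟨μ', hμ', ?_⟩
    rw [h2, norm_inv, norm_inv, Complex.norm_conj]
  have hconj : ∀ p : ℕ, p.Prime → p ∉ S → ∀ j, ((W j).map fun μ => (mono (x p) μ)⁻¹).sum =
      (starRingEnd ℂ) ((W j).map (mono (x p))).sum := by
    intro p hp hpS j
    have h1 := ((hherm p hp hpS j).map fun y => y⁻¹).sum_eq
    rw [List.map_map, List.map_map] at h1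
    rw [map_list_sum, List.map_map]
    rw [show ((fun y : ℂ => y⁻¹) ∘ mono (x p)) = fun μ => (mono (x p) μ)⁻¹ from rfl] at h1
    rw [← h1]
    congr 1
    refine List.map_congr_left fun μ _ => ?_
    simp
  have hmem : ∀ {l : List (Fin r → ℤ)} {i : ℕ}, i < l.length → l.getD i 0 ∈ l := by
    intro l i hi
    rw [List.getD_eq_getElem _ _ hi]
    exact List.getElem_mem hi
  obtain ⟨h1, h2⟩ := gap_gen (n := fun j => (W j).length) (c := c) (g := g) (B := B) hL hL' hF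
    (fun j p _ _ i _ => rfl) hg0 hlit (fun p hp hpS => by
      rcases hbd p hp hpS with ⟨a1, a2⟩ | a1
      · left
        refine ⟨fun j i hi => ⟨a1 j _ (hmem hi), ?_⟩, ?_, ?_⟩
        · obtain ⟨μ', hμ', h3⟩ := hdual p hp hpS j _ (hmem hi)
          rw [h3]
          exact a1 j μ' hμ'
        · simp only [map_ps, pow_one]
          exact a2
        · simp only [map_ps', pow_one]
          have h3 : ∑ j, (c j : ℂ) * ((W j).map fun μ => (mono (x p) μ)⁻¹).sum =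
              (starRingEnd ℂ) (∑ j, (c j : ℂ) * ((W j).map (mono (x p))).sum) := by
            rw [map_sum]
            refine Finset.sum_congr rfl fun j _ => ?_
            rw [map_mul, Complex.conj_ofReal, hconj p hp hpS j]
          rw [h3, Complex.norm_conj]
          exact a2
      · right
        intro j i hi
        refine ⟨a1 j _ (hmem hi), ?_⟩
        obtain ⟨μ', hμ', h3⟩ := hdual p hp hpS j _ (hmem hi)
        rw [h3]
        exact a1 j μ' hμ')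
  intro p hp hpS z hz
  rw [← Bm_ct x p z]
  exact Bm_vanish (fun k => h1 p hp hpS k) hz

end

end Pool.Agent.U253.SPL
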